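import Mathlib

/-!
Groups with a slowly oscillating function to `[0,1]` and closed embeddings between them.
-/

set_option autoImplicit false

namespace Pool.Agent.Q184.BG

open Set

/-- A group with a function to `[0,1]` which is slowly oscillating (left multiplication). -/
structure FG where
  G : Type
  [inst : Group G]
  f : G → ℝ
  f0 : ∀ g, 0 ≤ f g
  f1 : ∀ g, f g ≤ 1
  so : ∀ (s : G) (ε : ℝ), 0 < ε → {g | ε ≤ |f (s * g) - f g|}.Finite

attribute [instance] FG.inst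

/-- The set moved by at least `ε` under `s`. -/
def mv (A : FG) (s : A.G) (ε : ℝ) : Set A.G := {g | ε ≤ |A.f (s * g) - A.f g|}

/-- `S` is covered by at most `N` points. -/
def Cov {α : Type} (S : Set α) (N : ℕ) : Prop := ∃ t : Finset α, S ⊆ ↑t ∧ t.card ≤ N

lemma Cov.mono {α : Type} {S T : Set α} {N M : ℕ} (h : Cov T N) (hST : S ⊆ T) (hNM : N ≤ M) :
    Cov S M := by
  obtain ⟨t, h1, h2⟩ := h
  exact ⟨t, hST.trans h1, h2.trans hNM⟩

lemma Cov.finite {α : Type} {S : Set α} {N : ℕ} (h : Cov S N) : S.Finite := by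
  obtain ⟨t, h1, -⟩ := h
  exact t.finite_toSet.subset h1

lemma Cov.of_finite {α : Type} {S : Set α} (h : S.Finite) : ∃ N, Cov S N :=
  ⟨h.toFinset.card, h.toFinset, by simp, le_rfl⟩

lemma Cov.image {α β : Type} {S : Set α} {N : ℕ} (h : Cov S N) (φ : α → β) :
    Cov (φ '' S) N := by
  classical
  obtain ⟨t, h1, h2⟩ := h
  refine ⟨t.image φ, ?_, Finset.card_image_le.trans h2⟩
  rw [Finset.coe_image]
  exact Set.image_mono h1

lemma Cov.union {α : Type} {S T : Set α} {N M : ℕ} (h : Cov S N) (h' : Cov T M) :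
    Cov (S ∪ T) (N + M) := by
  classical
  obtain ⟨t, h1, h2⟩ := h
  obtain ⟨t', h1', h2'⟩ := h'
  refine ⟨t ∪ t', ?_, (Finset.card_union_le _ _).trans (add_le_add h2 h2')⟩
  rw [Finset.coe_union]
  exact Set.union_subset_union h1 h1'

lemma Cov.empty {α : Type} {S : Set α} (h : S = ∅) (N : ℕ) : Cov S N :=
  ⟨∅, by simp [h], by simp⟩

/-- Closed embeddings. -/
structure CE (A B : FG) where
  ι : A.G →* B.G
  inj : Function.Injective ι
  comp : ∀ g, B.f (ι g) = A.f g
  closed : ∀ (s : A.G) (b : B.G), b ∉ Set.range ι → B.f (ι s * b) = B.f b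

lemma CE.mv_eq {A B : FG} (e : CE A B) (s : A.G) {ε : ℝ} (hε : 0 < ε) :
    mv B (e.ι s) ε = e.ι '' mv A s ε := by
  ext b
  simp only [mv, mem_ofPred_eq, mem_image]
  constructor
  · intro h
    by_cases hb : b ∈ Set.range e.ι
    · obtain ⟨a, rfl⟩ := hb
      refine ⟨a, ?_, rfl⟩
      rw [← map_mul, e.comp, e.comp] at h
      exact h
    · rw [e.closed s b hb, sub_self, abs_zero] at h
      linarith
  · rintro ⟨a, ha, rfl⟩
    rw [← map_mul, e.comp, e.comp]
    exact ha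

lemma CE.cov {A B : FG} (e : CE A B) (s : A.G) {ε : ℝ} (hε : 0 < ε) {N : ℕ}
    (h : Cov (mv A s ε) N) : Cov (mv B (e.ι s) ε) N := by
  rw [e.mv_eq s hε]
  exact h.image _

lemma CE.cov' {A B : FG} (e : CE A B) (s : A.G) {ε : ℝ} (hε : 0 < ε) {N : ℕ}
    (h : Cov (mv B (e.ι s) ε) N) : Cov (mv A s ε) N := by
  classical
  rw [e.mv_eq s hε] at h
  obtain ⟨t, h1, h2⟩ := h
  refine ⟨t.preimage e.ι (e.inj.injOn), ?_, (Finset.card_le_card_of_injOn e.ι ?_ e.inj.injOn).trans
    h2⟩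
  · intro a ha
    rw [Finset.coe_preimage]
    exact h1 ⟨a, ha, rfl⟩
  · intro a ha
    rw [Finset.mem_coe, Finset.mem_preimage] at ha
    exact ha

/-- Composition of closed embeddings. -/
def CE.trans {A B C : FG} (e : CE A B) (e' : CE B C) : CE A C where
  ι := e'.ι.comp e.ι
  inj := e'.inj.comp e.inj
  comp := by
    intro g
    rw [MonoidHom.comp_apply, e'.comp, e.comp]
  closed := by
    intro s b hb
    rw [MonoidHom.comp_apply]
    by_cases h : b ∈ Set.range e'.ι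
    · obtain ⟨b', rfl⟩ := h
      rw [← map_mul, e'.comp, e'.comp]
      apply e.closed
      rintro ⟨a, rfl⟩
      exact hb ⟨a, rfl⟩
    · exact e'.closed _ b h

@[simp] lemma CE.trans_ι {A B C : FG} (e : CE A B) (e' : CE B C) (g : A.G) :
    (e.trans e').ι g = e'.ι (e.ι g) := rfl

/-- The identity. -/
def CE.refl (A : FG) : CE A A where
  ι := MonoidHom.id _
  inj := Function.injective_id
  comp := fun _ => rfl
  closed := by
    intro s b hb
    exact absurd ⟨b, rfl⟩ hb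

/-- Left invariance passes to closed extensions. -/
lemma CE.inv {A B : FG} (e : CE A B) {s : A.G} (h : ∀ y, A.f (s * y) = A.f y) (y : B.G) :
    B.f (e.ι s * y) = B.f y := by
  by_cases hy : y ∈ Set.range e.ι
  · obtain ⟨a, rfl⟩ := hy
    rw [← map_mul, e.comp, e.comp, h]
  · exact e.closed s y hy

/-! ### Functions on groups from twisted translations -/

section Bp

variable {Γ : Type} [Group Γ]

/-- The twisted translation `(y, r) ↦ (g y, r + β y)`. -/
def bp (g : Γ) (β : Γ → ℝ) : Equiv.Perm (Γ × ℝ) where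
  toFun p := (g * p.1, p.2 + β p.1)
  invFun p := (g⁻¹ * p.1, p.2 - β (g⁻¹ * p.1))
  left_inv := by
    intro p
    simp
  right_inv := by
    intro p
    simp

lemma bp_apply (g : Γ) (β : Γ → ℝ) (p : Γ × ℝ) : bp g β p = (g * p.1, p.2 + β p.1) := rfl

lemma bp_mul (g h : Γ) (β γ : Γ → ℝ) :
    bp g β * bp h γ = bp (g * h) (fun y => γ y + β (h * y)) := by
  ext p
  · simp [bp_apply, Equiv.Perm.mul_apply, mul_assoc]
  · simp [bp_apply, Equiv.Perm.mul_apply, add_assoc]

lemma bp_one : bp (1 : Γ) (fun _ => 0) = 1 := by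
  ext p
  · simp [bp_apply]
  · simp [bp_apply]

lemma bp_inv (g : Γ) (β : Γ → ℝ) : (bp g β)⁻¹ = bp g⁻¹ (fun y => - β (g⁻¹ * y)) := by
  rw [inv_eq_iff_mul_eq_one, bp_mul]
  rw [← bp_one]
  congr 1
  · simp
  · funext y
    simp

/-- `Φ` lies over left multiplication. -/
def IsBP (Φ : Γ →* Equiv.Perm (Γ × ℝ)) (g : Γ) : Prop := ∃ β, Φ g = bp g β

lemma IsBP.mul {Φ : Γ →* Equiv.Perm (Γ × ℝ)} {g h : Γ} (hg : IsBP Φ g) (hh : IsBP Φ h) :
    IsBP Φ (g * h) := by
  obtain ⟨β, hβ⟩ := hg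
  obtain ⟨γ, hγ⟩ := hh
  exact ⟨_, by rw [map_mul, hβ, hγ, bp_mul]⟩

lemma IsBP.inv {Φ : Γ →* Equiv.Perm (Γ × ℝ)} {g : Γ} (hg : IsBP Φ g) : IsBP Φ g⁻¹ := by
  obtain ⟨β, hβ⟩ := hg
  exact ⟨_, by rw [map_inv, hβ, bp_inv]⟩

/-- The function defined by the twisted action. -/
noncomputable def Fn (Φ : Γ →* Equiv.Perm (Γ × ℝ)) (a : ℝ) (y : Γ) : ℝ := (Φ y (1, a)).2

lemma Fn_one (Φ : Γ →* Equiv.Perm (Γ × ℝ)) (a : ℝ) : Fn Φ a 1 = a := by
  simp [Fn]

lemma Fn_mul {Φ : Γ →* Equiv.Perm (Γ × ℝ)} (hΦ : ∀ g, IsBP Φ g) (a : ℝ) {g : Γ} {β : Γ → ℝ}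
    (hg : Φ g = bp g β) (y : Γ) : Fn Φ a (g * y) = Fn Φ a y + β y := by
  obtain ⟨γ, hγ⟩ := hΦ y
  unfold Fn
  rw [map_mul, Equiv.Perm.mul_apply, hg, bp_apply]
  simp only
  rw [hγ, bp_apply]
  simp

end Bp

/-! ### Extension by zero along an embedding -/

section Ext

variable {A Γ : Type} [Group A] [Group Γ]

/-- Extension by zero. -/
noncomputable def E0 (ι : A →* Γ) (f : A → ℝ) : Γ → ℝ := Function.extend ι f 0

lemma E0_apply {ι : A →* Γ} (hι : Function.Injective ι) (f : A → ℝ) (a : A) :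
    E0 ι f (ι a) = f a := hι.extend_apply _ _ _

lemma E0_not {ι : A →* Γ} (f : A → ℝ) {y : Γ} (hy : y ∉ Set.range ι) : E0 ι f y = 0 := by
  unfold E0
  rw [Function.extend_apply' _ _ _ (by
    rintro ⟨a, ha⟩
    exact hy ⟨a, ha⟩)]
  rfl

lemma range_mul_iff {ι : A →* Γ} (s : A) (y : Γ) :
    ι s * y ∈ Set.range ι ↔ y ∈ Set.range ι := by
  constructor
  · rintro ⟨a, ha⟩
    refine ⟨s⁻¹ * a, ?_⟩
    rw [map_mul, map_inv, ha, inv_mul_cancel_left]
  · rintro ⟨a, rfl⟩
    exact ⟨s * a, map_mul _ _ _⟩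

/-- The coboundary of the extension by zero. -/
noncomputable def cb (ι : A →* Γ) (f : A → ℝ) (s : A) (y : Γ) : ℝ :=
  E0 ι f (ι s * y) - E0 ι f y

lemma cb_apply {ι : A →* Γ} (hι : Function.Injective ι) (f : A → ℝ) (s a : A) :
    cb ι f s (ι a) = f (s * a) - f a := by
  unfold cb
  rw [← map_mul, E0_apply hι, E0_apply hι]

lemma cb_not {ι : A →* Γ} (f : A → ℝ) (s : A) {y : Γ} (hy : y ∉ Set.range ι) :
    cb ι f s y = 0 := by
  unfold cb
  rw [E0_not f hy, E0_not f (fun h => hy ((range_mul_iff s y).1 h)), sub_self]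

lemma cb_set {ι : A →* Γ} (hι : Function.Injective ι) (f : A → ℝ) (s : A) {ε : ℝ} (hε : 0 < ε) :
    {y | ε ≤ |cb ι f s y|} = ι '' {a | ε ≤ |f (s * a) - f a|} := by
  ext y
  simp only [mem_ofPred_eq, mem_image]
  constructor
  · intro h
    by_cases hy : y ∈ Set.range ι
    · obtain ⟨a, rfl⟩ := hy
      exact ⟨a, by rwa [cb_apply hι] at h, rfl⟩
    · rw [cb_not f s hy, abs_zero] at h
      linarith
  · rintro ⟨a, ha, rfl⟩
    rwa [cb_apply hι]

lemma cb_mul (ι : A →* Γ) (f : A → ℝ) (s t : A) (y : Γ) :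
    cb ι f (s * t) y = cb ι f t y + cb ι f s (ι t * y) := by
  unfold cb
  rw [map_mul, mul_assoc]
  ring

lemma cb_zero_of_inv {ι : A →* Γ} (hι : Function.Injective ι) {f : A → ℝ} {s : A}
    (h : ∀ a, f (s * a) = f a) (y : Γ) : cb ι f s y = 0 := by
  by_cases hy : y ∈ Set.range ι
  · obtain ⟨a, rfl⟩ := hy
    rw [cb_apply hι, h, sub_self]
  · exact cb_not f s hy

/-- The twisted translations given by an embedding and a function. -/
noncomputable def emb (ι : A →* Γ) (f : A → ℝ) : A →* Equiv.Perm (Γ × ℝ) where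
  toFun s := bp (ι s) (cb ι f s)
  map_one' := by
    rw [← bp_one]
    congr 1
    · exact map_one ι
    · funext y
      simp [cb]
  map_mul' := by
    intro s t
    rw [bp_mul, map_mul]
    congr 1
    funext y
    exact cb_mul ι f s t y

lemma emb_apply (ι : A →* Γ) (f : A → ℝ) (s : A) : emb ι f s = bp (ι s) (cb ι f s) := rfl

end Ext

/-! ### Clamping -/

/-- Clamp to `[0,1]`. -/
noncomputable def cl (r : ℝ) : ℝ := max 0 (min 1 r)

lemma cl_nonneg (r : ℝ) : 0 ≤ cl r := le_max_left _ _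

lemma cl_le (r : ℝ) : cl r ≤ 1 := max_le zero_le_one (min_le_left _ _)

lemma cl_eq {r : ℝ} (h0 : 0 ≤ r) (h1 : r ≤ 1) : cl r = r := by
  unfold cl
  rw [min_eq_right h1, max_eq_right h0]

lemma cl_lip (r s : ℝ) : |cl r - cl s| ≤ |r - s| := by
  unfold cl
  calc |max 0 (min 1 r) - max 0 (min 1 s)| ≤ |min 1 r - min 1 s| := by
        have := abs_max_sub_max_le_abs (min 1 r) (min 1 s) 0
        rwa [max_comm 0 (min 1 r), max_comm 0 (min 1 s)]
    _ ≤ |r - s| := by
        have := abs_min_sub_min_le_max 1 r 1 s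
        simpa using this

section Mk

variable {Γ : Type} [Group Γ]

/-- `g` moves `F` slowly at infinity. -/
def SO (F : Γ → ℝ) (s : Γ) : Prop := ∀ ε : ℝ, 0 < ε → {g | ε ≤ |F (s * g) - F g|}.Finite

lemma SO.one (F : Γ → ℝ) : SO F 1 := by
  intro ε hε
  have : {g | ε ≤ |F (1 * g) - F g|} = ∅ := by
    ext g
    simp [hε]
  rw [this]
  exact Set.finite_empty

lemma SO.mul {F : Γ → ℝ} {s t : Γ} (hs : SO F s) (ht : SO F t) : SO F (s * t) := by
  intro ε hε
  have h1 := hs (ε / 2) (by positivity)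
  have h2 := ht (ε / 2) (by positivity)
  refine ((h1.preimage (f := fun g => t * g) (mul_right_injective t).injOn).union h2).subset ?_
  intro g hg
  simp only [mem_ofPred_eq, mem_union, mem_preimage] at hg ⊢
  by_contra hcon
  push Not at hcon
  have : |F (s * t * g) - F g| ≤ |F (s * (t * g)) - F (t * g)| + |F (t * g) - F g| := by
    rw [mul_assoc]
    exact abs_sub_le _ _ _
  linarith [hcon.1, hcon.2]

lemma SO.inv {F : Γ → ℝ} {s : Γ} (hs : SO F s) : SO F s⁻¹ := by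
  intro ε hε
  refine ((hs ε hε).preimage (f := fun g => s⁻¹ * g) (mul_right_injective _).injOn).subset ?_
  intro g hg
  simp only [mem_ofPred_eq, mem_preimage, mul_inv_cancel_left] at hg ⊢
  rwa [abs_sub_comm]

/-- The subgroup of slowly moving elements. -/
def soSub (F : Γ → ℝ) : Subgroup Γ where
  carrier := {s | SO F s}
  mul_mem' := SO.mul
  one_mem' := SO.one F
  inv_mem' := SO.inv

/-- The object given by a function. -/
noncomputable def mkFG (F : Γ → ℝ) (h : ∀ s, SO F s) : FG where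
  G := Γ
  f := fun g => cl (F g)
  f0 := fun g => cl_nonneg _
  f1 := fun g => cl_le _
  so := by
    intro s ε hε
    refine (h s ε hε).subset ?_
    intro g hg
    exact le_trans hg (cl_lip _ _)

end Mk

end Pool.Agent.Q184.BG
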