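import Pool.Agent.Q184.BG.Basic

/-!
The free product with the letters `c` and `t n i`, and the function on it.
-/

set_option autoImplicit false

namespace Pool.Agent.Q184.BG

open Set Monoid CoprodI

/-- Indices of the factors. -/
inductive Ix
  | g
  | c
  | t (n i : ℕ)
  deriving DecidableEq

/-- The factors. -/
def MM (G : Type) : Ix → Type
  | .g => G
  | .c => Multiplicative ℤ
  | .t _ _ => Multiplicative ℤ

instance instMM (G : Type) [Group G] : ∀ i, Group (MM G i)
  | .g => inferInstanceAs (Group G)
  | .c => inferInstanceAs (Group (Multiplicative ℤ))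
  | .t _ _ => inferInstanceAs (Group (Multiplicative ℤ))

noncomputable instance instDMM (G : Type) : ∀ i, DecidableEq (MM G i) :=
  fun _ => Classical.decEq _

/-- The exponent of a letter. -/
def tz {G : Type} {n i : ℕ} (k : MM G (Ix.t n i)) : ℤ :=
  Multiplicative.toAdd (show Multiplicative ℤ from k)

/-- The letter with a given exponent. -/
def zt {G : Type} {n i : ℕ} (k : ℤ) : MM G (Ix.t n i) :=
  (show Multiplicative ℤ from Multiplicative.ofAdd k)

/-- The letter with a given exponent. -/
def zc {G : Type} (k : ℤ) : MM G Ix.c :=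
  (show Multiplicative ℤ from Multiplicative.ofAdd k)

lemma tz_zt {G : Type} {n i : ℕ} (k : ℤ) : tz (zt k : MM G (Ix.t n i)) = k := rfl

lemma tz_mul {G : Type} [Group G] {n i : ℕ} (k l : MM G (Ix.t n i)) :
    tz (k * l) = tz k + tz l := rfl

lemma tz_inj {G : Type} {n i : ℕ} {k l : MM G (Ix.t n i)} (h : tz k = tz l) : k = l := h

lemma tz_one {G : Type} [Group G] {n i : ℕ} : tz (1 : MM G (Ix.t n i)) = 0 := rfl

/-- Syllables. -/
inductive Syl (G : Type)
  | g (y : G)
  | c
  | t (n i : ℕ) (k : ℤ)

/-- The syllable of a letter. -/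
def syl {G : Type} : (Σ i, MM G i) → Syl G
  | ⟨.g, y⟩ => .g y
  | ⟨.c, _⟩ => .c
  | ⟨.t n i, k⟩ => .t n i (tz k)

/-- The jump function on lists of syllables. -/
noncomputable def JL {G : Type} [One G] (b : ℕ → G → ℝ) : List (Syl G) → ℝ
  | [] => 0
  | .g _ :: _ => 0
  | .c :: _ => 0
  | .t n i k :: [] => if i < n + 3 ∧ k = 1 then b n 1 / (n + 3) else 0
  | .t _ _ _ :: .c :: _ => 0
  | .t n i k :: .g y :: [] => if i < n + 3 ∧ k = 1 then b n y / (n + 3) else 0
  | .t _ _ _ :: .g _ :: _ :: _ => 0
  | .t n i k :: .t n' i' k' :: l =>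
      if i < n + 3 ∧ k = 1 ∧ n' = n ∧ i' < n + 3 ∧ k' = -1 then - JL b l / (n + 2) else 0

/-- The total jump of a polygon. -/
noncomputable def BT {G : Type} [One G] (b : ℕ → G → ℝ) (n : ℕ) : List (Syl G) → ℝ
  | [] => b n 1
  | .g y :: [] => b n y
  | .g _ :: _ :: _ => 0
  | .c :: _ => 0
  | .t _ _ _ :: _ => 0

section

variable {G : Type} [Group G]

/-- The free product. -/
abbrev Ga (G : Type) [Group G] : Type := CoprodI (MM G)

/-- The embedding. -/
def ofg : G →* Ga G := CoprodI.of (M := MM G) (i := Ix.g)

lemma ofg_injective : Function.Injective (ofg : G → Ga G) :=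
  CoprodI.of_injective (M := MM G) Ix.g

/-- The letter `c`. -/
def cc : Ga G := CoprodI.of (M := MM G) (i := Ix.c) (zc 1)

/-- The letters `t n i`. -/
def tt (n i : ℕ) : Ga G := CoprodI.of (M := MM G) (i := Ix.t n i) (zt 1)

/-- The word of an element. -/
noncomputable def wd (x : Ga G) : Word (MM G) := x • Word.empty

lemma wd_mul (x y : Ga G) : wd (x * y) = x • wd y := mul_smul _ _ _

lemma wd_prod (x : Ga G) : (wd x).prod = x := by
  unfold wd
  rw [Word.prod_smul, Word.prod_empty, mul_one]

/-- The syllables of a word. -/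
def ws (w : Word (MM G)) : List (Syl G) := w.toList.map syl

lemma zt_ne_one {n i : ℕ} {k : ℤ} (hk : k ≠ 0) : (zt k : MM G (Ix.t n i)) ≠ 1 := by
  intro h
  exact hk (congrArg tz h)

lemma ws_tt_not (n i : ℕ) (w : Word (MM G)) (h : w.fstIdx ≠ some (Ix.t n i)) :
    ws ((tt n i : Ga G) • w) = Syl.t n i 1 :: ws w := by
  have h2 : (zt 1 : MM G (Ix.t n i)) ≠ 1 := zt_ne_one one_ne_zero
  have := Word.cons_eq_smul (M := MM G) (i := Ix.t n i) (m := zt 1)
    (ls := w) (h1 := h) (h2 := h2)
  unfold tt
  rw [← this]
  rfl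

lemma ws_tt_same (n i : ℕ) (k : MM G (Ix.t n i)) (w : Word (MM G)) (h1 : w.fstIdx ≠ some (Ix.t n i))
    (h2 : k ≠ 1) :
    ws ((tt n i : Ga G) • Word.cons k w h1 h2) =
      if tz k = -1 then ws w else Syl.t n i (1 + tz k) :: ws w := by
  have h3 : (tt n i : Ga G) • Word.cons k w h1 h2 =
      (CoprodI.of (M := MM G) (i := Ix.t n i) (zt 1 * k)) • w := by
    rw [Word.cons_eq_smul, ← mul_smul, map_mul]
    rfl
  rw [h3]
  split_ifs with hk
  · have h4 : (zt 1 : MM G (Ix.t n i)) * k = 1 := by
      apply tz_inj
      rw [tz_mul, tz_zt, hk, tz_one]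
      rfl
    rw [h4, map_one, one_smul]
  · have h4 : (zt 1 : MM G (Ix.t n i)) * k ≠ 1 := by
      intro h
      apply hk
      have h6 := congrArg tz h
      rw [tz_mul, tz_one, tz_zt] at h6
      linarith
    rw [← Word.cons_eq_smul (h1 := h1) (h2 := h4)]
    rfl

lemma JL_of_ne_one (b : ℕ → G → ℝ) (n i : ℕ) (k : ℤ) (hk : k ≠ 1) (l : List (Syl G)) :
    JL b (Syl.t n i k :: l) = 0 := by
  rcases l with _ | ⟨y | _ | ⟨n', i', k'⟩, l⟩
  · simp [JL, hk]
  · rcases l with _ | ⟨s, l⟩
    · simp [JL, hk]
    · simp [JL]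
  · simp [JL]
  · simp [JL, hk]

lemma sum_JL (b : ℕ → G → ℝ) (w : Word (MM G)) (n : ℕ) :
    ∑ i ∈ Finset.range (n + 3), JL b (ws ((tt n i : Ga G) • w)) = BT b n (ws w) := by
  have hn : ((n : ℝ) + 3) ≠ 0 := by positivity
  have hn2 : ((n : ℝ) + 2) ≠ 0 := by positivity
  induction w using Word.consRecOn with
  | empty =>
    have h1 : ∀ i ∈ Finset.range (n + 3), JL b (ws ((tt n i : Ga G) • (Word.empty : Word (MM G)))) =
        b n 1 / (n + 3) := by
      intro i hi
      rw [ws_tt_not n i _ (by simp [Word.fstIdx, Word.empty])]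
      have : ws (Word.empty : Word (MM G)) = [] := rfl
      rw [this]
      simp [JL, Finset.mem_range.1 hi]
    rw [Finset.sum_congr rfl h1]
    have : ws (Word.empty : Word (MM G)) = [] := rfl
    rw [this]
    simp only [Finset.sum_const, Finset.card_range, nsmul_eq_mul, BT]
    push_cast
    field_simp
  | cons j m w h1 h2 _ =>
    have hws : ws (Word.cons m w h1 h2) = syl ⟨j, m⟩ :: ws w := rfl
    rw [hws]
    have hfst : (Word.cons m w h1 h2).fstIdx = some j := rfl
    cases j with
    | g =>
      have h3 : ∀ i ∈ Finset.range (n + 3), JL b (ws ((tt n i : Ga G) • Word.cons m w h1 h2)) =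
          BT b n (syl ⟨Ix.g, m⟩ :: ws w) / (n + 3) := by
        intro i hi
        rw [ws_tt_not n i _ (by rw [hfst]; simp), hws]
        have : syl (G := G) ⟨Ix.g, m⟩ = Syl.g m := rfl
        rw [this]
        rcases ws w with _ | ⟨s, l⟩
        · simp [JL, BT, Finset.mem_range.1 hi]
        · simp [JL, BT]
      rw [Finset.sum_congr rfl h3]
      simp only [Finset.sum_const, Finset.card_range, nsmul_eq_mul]
      push_cast
      field_simp
    | c =>
      have h3 : ∀ i ∈ Finset.range (n + 3), JL b (ws ((tt n i : Ga G) • Word.cons m w h1 h2)) =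
          0 := by
        intro i hi
        rw [ws_tt_not n i _ (by rw [hfst]; simp), hws]
        have : syl (G := G) ⟨Ix.c, m⟩ = Syl.c := rfl
        rw [this]
        simp [JL]
      rw [Finset.sum_congr rfl h3, Finset.sum_const_zero]
      have : syl (G := G) ⟨Ix.c, m⟩ = Syl.c := rfl
      rw [this]
      simp [BT]
    | t n' i' =>
      have hs : syl (G := G) ⟨Ix.t n' i', m⟩ = Syl.t n' i' (tz m) :=
        rfl
      rw [hs]
      have hB : BT b n (Syl.t n' i' (tz m) :: ws w) = 0 := by
        simp [BT]
      rw [hB]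
      by_cases hni : n' = n ∧ i' < n + 3
      · obtain ⟨rfl, hi'⟩ := hni
        have h3 : ∀ i ∈ Finset.range (n' + 3), i ≠ i' →
            JL b (ws ((tt n' i : Ga G) • Word.cons m w h1 h2)) =
            if tz m = -1 then - JL b (ws w) / (n' + 2)
              else 0 := by
          intro i hi hne
          rw [ws_tt_not n' i _ (by
            rw [hfst]
            intro h
            have h5 := Option.some.inj h
            injection h5 with h6 h7
            exact hne h7.symm), hws, hs]
          simp [JL, Finset.mem_range.1 hi, hi']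
        have h4 := ws_tt_same n' i' m w h1 h2
        rw [← Finset.add_sum_erase _ _ (Finset.mem_range.2 hi')]
        rw [Finset.sum_congr rfl (fun i hi => h3 i (Finset.mem_of_mem_erase hi)
          (Finset.ne_of_mem_erase hi))]
        rw [h4, Finset.sum_const, Finset.card_erase_of_mem (Finset.mem_range.2 hi'),
          Finset.card_range]
        split_ifs with hk
        · rw [nsmul_eq_mul]
          have : n' + 3 - 1 = n' + 2 := by omega
          rw [this]
          push_cast
          field_simp
          ring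
        · rw [JL_of_ne_one]
          · simp
          · intro h
            apply h2
            have : tz m = 0 := by linarith
            exact this
      · apply Finset.sum_eq_zero
        intro i hi
        rw [ws_tt_not n i _ (by
          rw [hfst]
          intro h
          have h5 := Option.some.inj h
          injection h5 with h6 h7
          apply hni
          refine ⟨h6, ?_⟩
          rw [h7]
          exact Finset.mem_range.1 hi), hws, hs]
        simp only [JL]
        rw [if_neg]
        rintro ⟨-, -, h5, h6, -⟩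
        exact hni ⟨h5, h6⟩

end

end Pool.Agent.Q184.BG
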