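import Pool.Agent.Q184.BG.Free

/-!
The free product extension.
-/

set_option autoImplicit false

namespace Pool.Agent.Q184.BG

open Set Monoid CoprodI

section

variable {G : Type} [Group G]

open Classical in
lemma ws_ofg (y : G) : ws (wd (ofg y : Ga G)) = if y = 1 then [] else [Syl.g y] := by
  split_ifs with h
  · subst h
    unfold wd
    rw [map_one, one_smul]
    rfl
  · have h2 : (y : MM G Ix.g) ≠ 1 := h
    have := Word.cons_eq_smul (M := MM G) (i := Ix.g) (m := y)
      (ls := Word.empty) (h1 := by simp [Word.fstIdx, Word.empty]) (h2 := h2)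
    have h3 : wd (ofg y : Ga G) = Word.cons (M := MM G) (i := Ix.g) y Word.empty
      (by simp [Word.fstIdx, Word.empty]) h2 := this.symm
    rw [h3]
    rfl

lemma ws_nil {x : Ga G} (h : ws (wd x) = []) : x = ofg 1 := by
  have h1 : (wd x).toList = [] := List.map_eq_nil_iff.1 h
  rw [← wd_prod x, map_one]
  unfold Word.prod
  rw [h1]
  rfl

lemma ws_single {x : Ga G} {y : G} (h : ws (wd x) = [Syl.g y]) : x = ofg y := by
  have h1 : (wd x).toList.map syl = [Syl.g y] := h
  rw [← wd_prod x]
  unfold Word.prod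
  rcases hl : (wd x).toList with _ | ⟨⟨j, m⟩, l⟩
  · rw [hl] at h1
    simp at h1
  · rw [hl] at h1
    simp only [List.map_cons, List.cons.injEq, List.map_eq_nil_iff] at h1
    obtain ⟨h2, rfl⟩ := h1
    cases j with
    | g =>
      have h3 : (Syl.g m : Syl G) = Syl.g y := h2
      injection h3 with h3
      subst h3
      simp [ofg]
      rfl
    | c => cases h2
    | t n i => cases h2

variable (f : G → ℝ) (z : ℕ → G)

/-- The increments of `f` along `z`. -/
def bz (n : ℕ) (y : G) : ℝ := f (z n * y) - f y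

/-- The jump function. -/
noncomputable def JJ (x : Ga G) : ℝ := JL (bz f z) (ws (wd x))

lemma cb_eq_BT (n : ℕ) (x : Ga G) : cb (ofg : G →* Ga G) f (z n) x = BT (bz f z) n (ws (wd x)) := by
  by_cases hx : x ∈ Set.range (ofg : G →* Ga G)
  · obtain ⟨y, rfl⟩ := hx
    rw [cb_apply ofg_injective, ws_ofg]
    split_ifs with h
    · subst h
      rfl
    · rfl
  · rw [cb_not _ _ hx]
    rcases hl : ws (wd x) with _ | ⟨y | _ | ⟨n', i', k'⟩, l⟩
    · exact absurd ⟨1, (ws_nil hl).symm⟩ hx
    · rcases l with _ | ⟨s, l⟩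
      · exact absurd ⟨y, (ws_single hl).symm⟩ hx
      · rfl
    · rfl
    · rfl

lemma sum_JJ (n : ℕ) (x : Ga G) :
    ∑ i ∈ Finset.range (n + 3), JJ f z (tt n i * x) = cb (ofg : G →* Ga G) f (z n) x := by
  rw [cb_eq_BT, ← sum_JL]
  apply Finset.sum_congr rfl
  intro i _
  unfold JJ
  rw [wd_mul]

/-! ### Finiteness of the jumps -/

/-- The product of a list of letters. -/
def pr (l : List (Σ i, MM G i)) : Ga G := (l.map fun p => CoprodI.of p.2).prod

open Classical in
/-- The finite sets carrying the large jumps. -/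
noncomputable def DD (j : ℕ) (T : Finset G) : ℕ → Finset (Ga G)
  | 0 => (Finset.range (j + 1) ×ˢ Finset.range (j + 4) ×ˢ T).image
      (fun p => tt p.1 p.2.1 * ofg p.2.2)
  | k + 1 => (Finset.range (j + 1) ×ˢ Finset.range (j + 4) ×ˢ Finset.range (j + 4) ×ˢ
      DD j T k).image (fun p => tt p.1 p.2.1 * (tt p.1 p.2.2.1)⁻¹ * p.2.2.2)

lemma DD_card (j : ℕ) (T : Finset G) (k : ℕ) :
    (DD j T k).card ≤ ((j + 1) * (j + 4) ^ 2) ^ (k + 1) * T.card := by
  induction k with
  | zero =>
    refine Finset.card_image_le.trans ?_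
    rw [Finset.card_product, Finset.card_product, Finset.card_range, Finset.card_range,
      zero_add, pow_one, ← mul_assoc]
    apply Nat.mul_le_mul_right
    apply Nat.mul_le_mul_left
    nlinarith
  | succ k ih =>
    refine Finset.card_image_le.trans ?_
    rw [Finset.card_product, Finset.card_product, Finset.card_product, Finset.card_range,
      Finset.card_range]
    calc (j + 1) * ((j + 4) * ((j + 4) * (DD j T k).card))
        = ((j + 1) * (j + 4) ^ 2) * (DD j T k).card := by ring
      _ ≤ ((j + 1) * (j + 4) ^ 2) * (((j + 1) * (j + 4) ^ 2) ^ (k + 1) * T.card) :=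
          Nat.mul_le_mul_left _ ih
      _ = _ := by ring

lemma zt_of_tz {n i : ℕ} {k : MM G (Ix.t n i)} {m : ℤ} (h : tz k = m) : k = zt m := tz_inj h

lemma of_zt_neg (n i : ℕ) :
    (CoprodI.of (M := MM G) (i := Ix.t n i) (zt (-1)) : Ga G) = (tt n i)⁻¹ := by
  unfold tt
  rw [← map_inv]
  rfl

lemma JL_mem {b : ℕ → G → ℝ} {j : ℕ} {T : Finset G} (hb : ∀ n y, |b n y| ≤ 1)
    (hT : ∀ n ≤ j, ∀ y, 1 / ((j : ℝ) + 1) ≤ |b n y| → y ∈ T) (m : ℕ) :
    ∀ l : List (Σ i, MM G i), l.length ≤ m → 1 / ((j : ℝ) + 1) ≤ |JL b (l.map syl)| →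
      ∃ k : ℕ, 2 ^ k * |JL b (l.map syl)| ≤ 1 ∧ pr l ∈ DD j T k := by
  have hj : (0 : ℝ) < 1 / ((j : ℝ) + 1) := by positivity
  have hj1 : (0 : ℝ) < (j : ℝ) + 1 := by positivity
  have key : ∀ (n : ℕ) (r : ℝ), |r| ≤ 1 → 1 / ((j : ℝ) + 1) ≤ |r / (n + 3)| →
      n ≤ j ∧ 1 / ((j : ℝ) + 1) ≤ |r| ∧ |r / (n + 3)| ≤ 1 := by
    intro n r hr h
    have hn3 : (0 : ℝ) < (n : ℝ) + 3 := by positivity
    rw [abs_div, abs_of_pos hn3] at h ⊢
    have h1 : 1 / ((j : ℝ) + 1) * (n + 3) ≤ |r| := by
      rwa [le_div_iff₀ hn3] at h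
    refine ⟨?_, ?_, ?_⟩
    · have h2 : ((n : ℝ) + 3) ≤ (j : ℝ) + 1 := by
        have h3 : 1 / ((j : ℝ) + 1) * (n + 3) ≤ 1 := h1.trans hr
        rw [one_div_mul_eq_div, div_le_one hj1] at h3
        exact h3
      have h4 : (n : ℝ) ≤ j := by linarith
      exact_mod_cast h4
    · have h5 : 1 / ((j : ℝ) + 1) * 1 ≤ 1 / ((j : ℝ) + 1) * (n + 3) := by
        apply mul_le_mul_of_nonneg_left _ hj.le
        have : (0 : ℝ) ≤ n := by positivity
        linarith
      linarith
    · rw [div_le_one hn3]
      have : (0 : ℝ) ≤ n := by positivity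
      linarith
  induction m with
  | zero =>
    intro l hl h
    have : l = [] := List.length_eq_zero_iff.1 (Nat.le_zero.1 hl)
    subst this
    simp only [List.map_nil, JL, abs_zero] at h
    linarith
  | succ m ih =>
    intro l hl h
    rcases l with _ | ⟨⟨i1, m1⟩, l⟩
    · simp only [List.map_nil, JL, abs_zero] at h
      linarith
    cases i1 with
    | g =>
      have hs : syl (G := G) ⟨Ix.g, m1⟩ = Syl.g m1 := rfl
      rw [List.map_cons, hs] at h
      simp only [JL, abs_zero] at h
      linarith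
    | c =>
      have hs : syl (G := G) ⟨Ix.c, m1⟩ = Syl.c := rfl
      rw [List.map_cons, hs] at h
      simp only [JL, abs_zero] at h
      linarith
    | t n i =>
      have hs : syl (G := G) ⟨Ix.t n i, m1⟩ = Syl.t n i (tz m1) := rfl
      rw [List.map_cons, hs] at h ⊢
      rcases l with _ | ⟨⟨i2, m2⟩, l⟩
      · simp only [List.map_nil, JL] at h ⊢
        by_cases hc : i < n + 3 ∧ tz m1 = 1
        · rw [if_pos hc] at h ⊢
          obtain ⟨h1, h2, h3⟩ := key n _ (hb n 1) h
          refine ⟨0, by rw [pow_zero, one_mul]; exact h3, ?_⟩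
          rw [zt_of_tz hc.2]
          refine Finset.mem_image.2 ⟨(n, i, 1), ?_, ?_⟩
          · simp only [Finset.mem_product, Finset.mem_range]
            exact ⟨by omega, by omega, hT n h1 1 h2⟩
          · simp [pr, tt]
        · rw [if_neg hc, abs_zero] at h
          linarith
      · cases i2 with
        | c =>
          have hs2 : syl (G := G) ⟨Ix.c, m2⟩ = Syl.c := rfl
          rw [List.map_cons, hs2] at h
          simp only [JL, abs_zero] at h
          linarith
        | g =>
          have hs2 : syl (G := G) ⟨Ix.g, m2⟩ = Syl.g m2 := rfl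
          rw [List.map_cons, hs2] at h ⊢
          rcases l with _ | ⟨s, l⟩
          · simp only [List.map_nil, JL] at h ⊢
            by_cases hc : i < n + 3 ∧ tz m1 = 1
            · rw [if_pos hc] at h ⊢
              obtain ⟨h1, h2, h3⟩ := key n _ (hb n m2) h
              refine ⟨0, by rw [pow_zero, one_mul]; exact h3, ?_⟩
              rw [zt_of_tz hc.2]
              refine Finset.mem_image.2 ⟨(n, i, m2), ?_, ?_⟩
              · simp only [Finset.mem_product, Finset.mem_range]
                exact ⟨by omega, by omega, hT n h1 m2 h2⟩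
              · simp [pr, tt, ofg]
                rfl
            · rw [if_neg hc, abs_zero] at h
              linarith
          · simp only [List.map_cons, JL, abs_zero] at h
            linarith
        | t n' i' =>
          have hs2 : syl (G := G) ⟨Ix.t n' i', m2⟩ = Syl.t n' i' (tz m2) := rfl
          rw [List.map_cons, hs2] at h ⊢
          simp only [JL] at h ⊢
          by_cases hc : i < n + 3 ∧ tz m1 = 1 ∧ n' = n ∧ i' < n + 3 ∧ tz m2 = -1
          · rw [if_pos hc] at h ⊢
            obtain ⟨hc1, hc2, rfl, hc3, hc4⟩ := hc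
            have hn2 : (0 : ℝ) < (n' : ℝ) + 2 := by positivity
            rw [abs_div, abs_neg, abs_of_pos hn2] at h ⊢
            have h1 : 1 / ((j : ℝ) + 1) * (n' + 2) ≤ |JL b (l.map syl)| := by
              rwa [le_div_iff₀ hn2] at h
            have h2 : 1 / ((j : ℝ) + 1) ≤ |JL b (l.map syl)| := by
              have h5 : 1 / ((j : ℝ) + 1) * 1 ≤ 1 / ((j : ℝ) + 1) * (n' + 2) := by
                apply mul_le_mul_of_nonneg_left _ hj.le
                have : (0 : ℝ) ≤ n' := by positivity
                linarith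
              linarith
            obtain ⟨k, hk1, hk2⟩ := ih l (by
              simp only [List.length_cons] at hl
              omega) h2
            have hJ1 : |JL b (l.map syl)| ≤ 1 := by
              refine le_trans ?_ hk1
              have : (1 : ℝ) ≤ 2 ^ k := one_le_pow₀ (by norm_num)
              nlinarith [abs_nonneg (JL b (l.map syl))]
            have hn'j : n' ≤ j := by
              have h3 : 1 / ((j : ℝ) + 1) * (n' + 2) ≤ 1 := h1.trans hJ1
              rw [one_div_mul_eq_div, div_le_one hj1] at h3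
              have h4 : (n' : ℝ) ≤ j := by linarith
              exact_mod_cast h4
            refine ⟨k + 1, ?_, ?_⟩
            · rw [mul_div_assoc', div_le_one hn2, pow_succ]
              have : (0 : ℝ) ≤ n' := by positivity
              nlinarith [hk1]
            · rw [zt_of_tz hc2, zt_of_tz hc4]
              refine Finset.mem_image.2 ⟨(n', i, i', pr l), ?_, ?_⟩
              · simp only [Finset.mem_product, Finset.mem_range]
                exact ⟨by omega, by omega, by omega, hk2⟩
              · simp only [pr, List.map_cons, List.prod_cons]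
                rw [of_zt_neg, mul_assoc]
                rfl
          · rw [if_neg hc, abs_zero] at h
            linarith

/-- The bound for the rates of `c`. -/
def Th (j N : ℕ) : ℕ :=
  ∑ k ∈ Finset.range (j + 1), ((j + 1) * (j + 4) ^ 2) ^ (k + 1) * ((j + 1) * N)

lemma JJ_cov {f : G → ℝ} {z : ℕ → G} {j N : ℕ} (hb : ∀ n y, |bz f z n y| ≤ 1)
    (h : ∀ n ≤ j, Cov {y | 1 / ((j : ℝ) + 1) ≤ |bz f z n y|} N) :
    Cov {x : Ga G | 1 / ((j : ℝ) + 1) ≤ |JJ f z x|} (Th j N) := by
  classical
  have h' : ∀ n, ∃ t : Finset G, (n ≤ j → {y | 1 / ((j : ℝ) + 1) ≤ |bz f z n y|} ⊆ ↑t) ∧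
      t.card ≤ N := by
    intro n
    by_cases hn : n ≤ j
    · obtain ⟨t, h1, h2⟩ := h n hn
      exact ⟨t, fun _ => h1, h2⟩
    · exact ⟨∅, fun h => absurd h hn, by simp⟩
  choose t ht1 ht2 using h'
  let T : Finset G := (Finset.range (j + 1)).biUnion t
  have hTc : T.card ≤ (j + 1) * N := by
    refine Finset.card_biUnion_le.trans ?_
    refine (Finset.sum_le_card_nsmul _ _ N (fun n _ => ht2 n)).trans ?_
    rw [Finset.card_range, smul_eq_mul]
  have hT : ∀ n ≤ j, ∀ y, 1 / ((j : ℝ) + 1) ≤ |bz f z n y| → y ∈ T := by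
    intro n hn y hy
    exact Finset.mem_biUnion.2 ⟨n, Finset.mem_range.2 (by omega), ht1 n hn hy⟩
  refine ⟨(Finset.range (j + 1)).biUnion (DD j T), ?_, ?_⟩
  · intro x hx
    obtain ⟨k, hk1, hk2⟩ := JL_mem hb hT (wd x).toList.length (wd x).toList le_rfl hx
    have hpr : pr (wd x).toList = x := wd_prod x
    rw [hpr] at hk2
    simp only [Finset.coe_biUnion, Set.mem_iUnion, Finset.mem_coe, Finset.mem_range]
    refine ⟨k, ?_, hk2⟩
    have h3 : (2 : ℝ) ^ k ≤ (j : ℝ) + 1 := by
      have hx' : 1 / ((j : ℝ) + 1) ≤ |JL (bz f z) ((wd x).toList.map syl)| := hx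
      have h4 : 2 ^ k * (1 / ((j : ℝ) + 1)) ≤ 1 :=
        (mul_le_mul_of_nonneg_left hx' (by positivity)).trans hk1
      rw [mul_one_div, div_le_one (by positivity)] at h4
      exact h4
    have h5 : 2 ^ k ≤ j + 1 := by exact_mod_cast h3
    have h6 : k < 2 ^ k := Nat.lt_two_pow_self
    omega
  · refine Finset.card_biUnion_le.trans ?_
    apply Finset.sum_le_sum
    intro k _
    exact (DD_card j T k).trans (Nat.mul_le_mul_left _ hTc)

end

end Pool.Agent.Q184.BG
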