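import Pool.Agent.Q184.BG.Free2

/-!
The free product extension: the object.
-/

set_option autoImplicit false

namespace Pool.Agent.Q184.BG

open Set Monoid CoprodI

section

variable {G : Type} [Group G]

lemma zt_eq_zpow {n i : ℕ} (m : MM G (Ix.t n i)) : m = (zt 1) ^ (tz m) := by
  have h : ∀ k : ℤ, (Multiplicative.ofAdd (1 : ℤ)) ^ k = Multiplicative.ofAdd k := by
    intro k
    rw [← ofAdd_zsmul, smul_eq_mul, mul_one]
  exact (h (tz m)).symm

lemma zc_eq_zpow (m : MM G Ix.c) :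
    m = (zc 1) ^ (Multiplicative.toAdd (show Multiplicative ℤ from m)) := by
  have h : ∀ k : ℤ, (Multiplicative.ofAdd (1 : ℤ)) ^ k = Multiplicative.ofAdd k := by
    intro k
    rw [← ofAdd_zsmul, smul_eq_mul, mul_one]
  exact (h (Multiplicative.toAdd (show Multiplicative ℤ from m))).symm

/-- Every subgroup containing the generators is everything. -/
lemma mem_of_gens (S : Subgroup (Ga G)) (h1 : ∀ y, (ofg y : Ga G) ∈ S) (h2 : (cc : Ga G) ∈ S)
    (h3 : ∀ n i, (tt n i : Ga G) ∈ S) (x : Ga G) : x ∈ S := by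
  induction x using CoprodI.induction_on with
  | one => exact S.one_mem
  | of i m =>
    cases i with
    | g => exact h1 m
    | c =>
      rw [zc_eq_zpow m, map_zpow]
      exact S.zpow_mem h2 _
    | t n i =>
      rw [zt_eq_zpow m, map_zpow]
      exact S.zpow_mem (h3 n i) _
  | mul x y hx hy => exact S.mul_mem hx hy

variable (f : G → ℝ) (z : ℕ → G)

/-- The twisted translations of the factors. -/
noncomputable def phi : ∀ i, MM G i →* Equiv.Perm (Ga G × ℝ)
  | .g => (emb (ofg : G →* Ga G) f : G →* Equiv.Perm (Ga G × ℝ))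
  | .c => (zpowersHom (Equiv.Perm (Ga G × ℝ)) (bp cc (JJ f z)) :
      Multiplicative ℤ →* Equiv.Perm (Ga G × ℝ))
  | .t n i => (zpowersHom (Equiv.Perm (Ga G × ℝ))
      (bp (tt n i) (fun y => ∑ l ∈ Finset.range i, JJ f z (tt n l * y))) :
      Multiplicative ℤ →* Equiv.Perm (Ga G × ℝ))

/-- The twisted action. -/
noncomputable def Ph : Ga G →* Equiv.Perm (Ga G × ℝ) := CoprodI.lift (phi f z)

lemma Ph_ofg (s : G) : Ph f z (ofg s) = bp (ofg s) (cb (ofg : G →* Ga G) f s) := by
  unfold Ph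
  have h : CoprodI.lift (phi f z) (ofg s : Ga G) = phi f z Ix.g s := CoprodI.lift_of _ _
  rw [h]
  rfl

lemma Ph_cc : Ph f z cc = bp cc (JJ f z) := by
  unfold Ph
  have h : CoprodI.lift (phi f z) (cc : Ga G) = phi f z Ix.c (zc 1) := CoprodI.lift_of _ _
  rw [h]
  have h2 : phi f z Ix.c (zc 1) = (bp cc (JJ f z)) ^ (1 : ℤ) := rfl
  rw [h2, zpow_one]

lemma Ph_tt (n i : ℕ) :
    Ph f z (tt n i) = bp (tt n i) (fun y => ∑ l ∈ Finset.range i, JJ f z (tt n l * y)) := by
  unfold Ph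
  have h : CoprodI.lift (phi f z) (tt n i : Ga G) = phi f z (Ix.t n i) (zt 1) :=
    CoprodI.lift_of _ _
  rw [h]
  have h2 : phi f z (Ix.t n i) (zt 1) =
    (bp (tt n i) (fun y => ∑ l ∈ Finset.range i, JJ f z (tt n l * y))) ^ (1 : ℤ) := rfl
  rw [h2, zpow_one]

lemma Ph_bp (x : Ga G) : IsBP (Ph f z) x := by
  let S : Subgroup (Ga G) :=
    { carrier := {x | IsBP (Ph f z) x}
      mul_mem' := fun hx hy => hx.mul hy
      one_mem' := ⟨fun _ => 0, by rw [map_one, bp_one]⟩
      inv_mem' := fun hx => hx.inv }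
  exact mem_of_gens S (fun y => ⟨_, Ph_ofg f z y⟩) ⟨_, Ph_cc f z⟩ (fun n i => ⟨_, Ph_tt f z n i⟩) x

/-- The function on the free product. -/
noncomputable def FF (x : Ga G) : ℝ := Fn (Ph f z) (f 1) x

lemma FF_ofg_mul (s : G) (y : Ga G) : FF f z (ofg s * y) = FF f z y + cb (ofg : G →* Ga G) f s y :=
  Fn_mul (Ph_bp f z) _ (Ph_ofg f z s) y

lemma FF_cc_mul (y : Ga G) : FF f z (cc * y) = FF f z y + JJ f z y :=
  Fn_mul (Ph_bp f z) _ (Ph_cc f z) y

lemma FF_tt_mul (n i : ℕ) (y : Ga G) :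
    FF f z (tt n i * y) = FF f z y + ∑ l ∈ Finset.range i, JJ f z (tt n l * y) :=
  Fn_mul (Ph_bp f z) _ (Ph_tt f z n i) y

lemma FF_ofg (s : G) : FF f z (ofg s) = f s := by
  have h1 := FF_ofg_mul f z s 1
  have h2 := cb_apply (ι := (ofg : G →* Ga G)) ofg_injective f s 1
  have h3 : FF f z 1 = f 1 := Fn_one _ _
  rw [map_one] at h2
  rw [mul_one, h2, h3, mul_one] at h1
  rw [h1]
  ring

lemma FF_t0 (n : ℕ) (y : Ga G) : FF f z (tt n 0 * y) = FF f z y := by
  rw [FF_tt_mul, Finset.range_zero, Finset.sum_empty, add_zero]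

lemma FF_ts (n i : ℕ) (y : Ga G) : FF f z (tt n (i + 1) * y) = FF f z (cc * (tt n i * y)) := by
  rw [FF_tt_mul, FF_cc_mul, FF_tt_mul, Finset.sum_range_succ, add_assoc]

lemma FF_z (n : ℕ) (y : Ga G) : FF f z (ofg (z n) * y) = FF f z (cc * (tt n (n + 2) * y)) := by
  rw [FF_ofg_mul, FF_cc_mul, FF_tt_mul, ← sum_JJ, Finset.sum_range_succ, add_assoc]

/-! ### Freeness of the two families -/

/-- The first family. -/
def aa (n : ℕ) : ℕ → Ga G
  | 0 => tt n 0
  | i + 1 => tt n (i + 1) * (tt n i)⁻¹ * cc⁻¹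

/-- The second family. -/
def ab (n : ℕ) : Ga G := ofg (z n) * (tt n (n + 2))⁻¹ * cc⁻¹

/-- Products of generators. -/
def pp (n : ℕ) : ℕ → FreeGroup (ℕ × ℕ)
  | 0 => FreeGroup.of (n, 0)
  | i + 1 => FreeGroup.of (n, i + 1) * pp n i

/-- Homs of the factors. -/
def hov {H : Type} [Group H] (v : ℕ → ℕ → H) : ∀ i, MM G i →* H
  | .g => (1 : G →* H)
  | .c => (1 : Multiplicative ℤ →* H)
  | .t n i => (zpowersHom H (v n i) : Multiplicative ℤ →* H)

/-- Homs from the free product given by the images of the letters `t`. -/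
def ho {H : Type} [Group H] (v : ℕ → ℕ → H) : Ga G →* H := CoprodI.lift (hov v)

lemma ho_ofg {H : Type} [Group H] (v : ℕ → ℕ → H) (y : G) : ho v (ofg y) = 1 := by
  have h : CoprodI.lift (hov v) (ofg y : Ga G) = hov v Ix.g y := CoprodI.lift_of _ _
  unfold ho
  rw [h]
  rfl

lemma ho_cc {H : Type} [Group H] (v : ℕ → ℕ → H) : ho v (cc : Ga G) = 1 := by
  have h : CoprodI.lift (hov v) (cc : Ga G) = hov v Ix.c (zc 1) := CoprodI.lift_of _ _
  unfold ho
  rw [h]
  rfl

lemma ho_tt {H : Type} [Group H] (v : ℕ → ℕ → H) (n i : ℕ) : ho v (tt n i : Ga G) = v n i := by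
  have h : CoprodI.lift (hov v) (tt n i : Ga G) = hov v (Ix.t n i) (zt 1) := CoprodI.lift_of _ _
  unfold ho
  rw [h]
  have h2 : (zpowersHom H (v n i) : Multiplicative ℤ →* H) (Multiplicative.ofAdd 1) = v n i := by
    simp
  exact h2

lemma ho_aa (n i : ℕ) : ho pp (aa n i : Ga G) = FreeGroup.of (n, i) := by
  cases i with
  | zero =>
    unfold aa
    rw [ho_tt]
    rfl
  | succ i =>
    unfold aa
    rw [map_mul, map_mul, map_inv, map_inv, ho_tt, ho_tt, ho_cc, inv_one, mul_one]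
    change FreeGroup.of (n, i + 1) * pp n i * (pp n i)⁻¹ = _
    rw [mul_inv_cancel_right]

lemma ho_ab (n : ℕ) :
    ho (fun n i => if i = n + 2 then (FreeGroup.of n)⁻¹ else 1) (ab z n : Ga G) =
      FreeGroup.of n := by
  unfold ab
  rw [map_mul, map_mul, map_inv, map_inv, ho_ofg, ho_tt, ho_cc]
  simp

lemma aa_free : Function.Injective
    (FreeGroup.lift (fun j => (aa (Nat.unpair j).1 (Nat.unpair j).2 : Ga G))) := by
  have h : ∀ w : FreeGroup ℕ, (FreeGroup.map (fun p : ℕ × ℕ => Nat.pair p.1 p.2))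
      (ho pp (FreeGroup.lift (fun j => (aa (Nat.unpair j).1 (Nat.unpair j).2 : Ga G)) w)) = w := by
    intro w
    have : ((FreeGroup.map (fun p : ℕ × ℕ => Nat.pair p.1 p.2)).comp ((ho (G := G) pp).comp
        (FreeGroup.lift (fun j => (aa (Nat.unpair j).1 (Nat.unpair j).2 : Ga G))))) =
        MonoidHom.id _ := by
      ext j
      simp only [MonoidHom.comp_apply, FreeGroup.lift_apply_of, ho_aa, FreeGroup.map.of,
        Nat.pair_unpair, MonoidHom.id_apply]
    exact DFunLike.congr_fun this w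
  intro v w hvw
  rw [← h v, ← h w, hvw]

lemma ab_free : Function.Injective (FreeGroup.lift (fun n => (ab z n : Ga G))) := by
  have h : ∀ w : FreeGroup ℕ, (ho (G := G) (fun n i => if i = n + 2 then (FreeGroup.of n)⁻¹ else 1))
      (FreeGroup.lift (fun n => (ab z n : Ga G)) w) = w := by
    intro w
    have : ((ho (G := G) (fun n i => if i = n + 2 then (FreeGroup.of n)⁻¹ else 1)).comp
        (FreeGroup.lift (fun n => (ab z n : Ga G)))) = MonoidHom.id _ := by
      ext j
      simp only [MonoidHom.comp_apply, FreeGroup.lift_apply_of, ho_ab, MonoidHom.id_apply]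
    exact DFunLike.congr_fun this w
  intro v w hvw
  rw [← h v, ← h w, hvw]

end

/-- The free product extension. -/
theorem free_step (A : FG) (z : ℕ → A.G) :
    ∃ (B : FG) (e : CE A B) (c : B.G) (a : ℕ → B.G) (a' : ℕ → B.G) (t : ℕ → ℕ → B.G),
      (∀ n, t n 0 = a (Nat.pair n 0)) ∧
      (∀ n i, t n (i + 1) = a (Nat.pair n (i + 1)) * c * t n i) ∧
      (∀ n, e.ι (z n) = a' n * c * t n (n + 2)) ∧
      Function.Injective (FreeGroup.lift a) ∧ Function.Injective (FreeGroup.lift a') ∧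
      (∀ j y, B.f (a j * y) = B.f y) ∧ (∀ j y, B.f (a' j * y) = B.f y) ∧
      (∀ j N : ℕ, (∀ n ≤ j, Cov (mv A (z n) (1 / ((j : ℝ) + 1))) N) →
        Cov (mv B c (1 / ((j : ℝ) + 1))) (Th j N)) := by
  classical
  let f := A.f
  have hb : ∀ n y, |bz f z n y| ≤ 1 := by
    intro n y
    unfold bz
    rw [abs_le]
    constructor <;> linarith [A.f0 (z n * y), A.f1 (z n * y), A.f0 y, A.f1 y]
  have hJcov : ∀ j N : ℕ, (∀ n ≤ j, Cov (mv A (z n) (1 / ((j : ℝ) + 1))) N) →
      Cov {x : Ga A.G | 1 / ((j : ℝ) + 1) ≤ |JJ f z x|} (Th j N) := by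
    intro j N h
    exact JJ_cov hb h
  have hJfin : ∀ ε : ℝ, 0 < ε → {x : Ga A.G | ε ≤ |JJ f z x|}.Finite := by
    intro ε hε
    obtain ⟨j, hj⟩ := exists_nat_one_div_lt hε
    have h1 : ∀ n, ∃ N, Cov (mv A (z n) (1 / ((j : ℝ) + 1))) N := by
      intro n
      exact Cov.of_finite (A.so (z n) _ (by positivity))
    choose N hN using h1
    refine (hJcov j ((Finset.range (j + 1)).sup N) ?_).finite.subset ?_
    · intro n hn
      refine (hN n).mono (Set.Subset.refl _) ?_
      exact Finset.le_sup (f := N) (Finset.mem_range.2 (by omega))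
    · intro x hx
      exact hj.le.trans hx
  have hcc : SO (FF f z) cc := by
    intro ε hε
    refine (hJfin ε hε).subset ?_
    intro x hx
    simp only [mem_ofPred_eq] at hx ⊢
    rwa [FF_cc_mul, add_sub_cancel_left] at hx
  have htt : ∀ n i, SO (FF f z) (tt n i) := by
    intro n i
    induction i with
    | zero =>
      intro ε hε
      refine Set.Finite.subset Set.finite_empty ?_
      intro x hx
      simp only [mem_ofPred_eq] at hx
      rw [FF_t0, sub_self, abs_zero] at hx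
      linarith
    | succ i ih =>
      have h1 : SO (FF f z) (cc * tt n i) := hcc.mul ih
      intro ε hε
      refine (h1 ε hε).subset ?_
      intro x hx
      simp only [mem_ofPred_eq] at hx ⊢
      rwa [FF_ts, ← mul_assoc] at hx
  have hoo : ∀ s, SO (FF f z) (ofg s) := by
    intro s ε hε
    have : {g | ε ≤ |FF f z (ofg s * g) - FF f z g|} =
        {y | ε ≤ |cb (ofg : A.G →* Ga A.G) f s y|} := by
      ext y
      simp only [mem_ofPred_eq]
      rw [FF_ofg_mul, add_sub_cancel_left]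
    rw [this, cb_set ofg_injective _ _ hε]
    exact (A.so s ε hε).image _
  have hSO : ∀ x, SO (FF f z) x := fun x => mem_of_gens (soSub (FF f z)) hoo hcc htt x
  let B : FG := mkFG (FF f z) hSO
  have hco : ∀ g, cl (FF f z (ofg g)) = A.f g := by
    intro g
    rw [FF_ofg, cl_eq (A.f0 g) (A.f1 g)]
  have hclo : ∀ (s : A.G) (b : Ga A.G), b ∉ Set.range (ofg : A.G →* Ga A.G) →
      cl (FF f z (ofg s * b)) = cl (FF f z b) := by
    intro s b hb
    rw [FF_ofg_mul, cb_not f s hb, add_zero]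
  let e : CE A B := { ι := ofg, inj := ofg_injective, comp := hco, closed := hclo }
  have h1 : ∀ n, (tt n 0 : Ga A.G) = aa (Nat.unpair (Nat.pair n 0)).1 (Nat.unpair (Nat.pair n 0)).2 := by
    intro n
    rw [Nat.unpair_pair]
    rfl
  have h2 : ∀ n i, (tt n (i + 1) : Ga A.G) =
      aa (Nat.unpair (Nat.pair n (i + 1))).1 (Nat.unpair (Nat.pair n (i + 1))).2 * cc * tt n i := by
    intro n i
    rw [Nat.unpair_pair]
    change tt n (i + 1) = tt n (i + 1) * (tt n i)⁻¹ * cc⁻¹ * cc * tt n i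
    group
  have h3 : ∀ n, (ofg (z n) : Ga A.G) = ab z n * cc * tt n (n + 2) := by
    intro n
    unfold ab
    group
  have h4 : ∀ n i (y : Ga A.G), FF f z (aa n i * y) = FF f z y := by
    intro n i y
    cases i with
    | zero => exact FF_t0 f z n y
    | succ i =>
      have h5 := FF_ts f z n i ((tt n i)⁻¹ * (cc⁻¹ * y))
      rw [mul_inv_cancel_left, mul_inv_cancel_left] at h5
      unfold aa
      rw [mul_assoc, mul_assoc]
      exact h5
  have h5 : ∀ n (y : Ga A.G), FF f z (ab z n * y) = FF f z y := by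
    intro n y
    have h6 := FF_z f z n ((tt n (n + 2))⁻¹ * (cc⁻¹ * y))
    rw [mul_inv_cancel_left, mul_inv_cancel_left] at h6
    unfold ab
    rw [mul_assoc, mul_assoc]
    exact h6
  have h6 : ∀ j (y : Ga A.G), cl (FF f z (aa (Nat.unpair j).1 (Nat.unpair j).2 * y)) =
      cl (FF f z y) := fun j y => by rw [h4]
  have h7 : ∀ j (y : Ga A.G), cl (FF f z (ab z j * y)) = cl (FF f z y) := fun j y => by rw [h5]
  have h8 : ∀ j N : ℕ, (∀ n ≤ j, Cov (mv A (z n) (1 / ((j : ℝ) + 1))) N) →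
      Cov (mv B (cc : Ga A.G) (1 / ((j : ℝ) + 1))) (Th j N) := by
    intro j N h
    refine (hJcov j N h).mono ?_ le_rfl
    intro x hx
    have hx' : 1 / ((j : ℝ) + 1) ≤ |cl (FF f z (cc * (x : Ga A.G))) - cl (FF f z x)| := hx
    have h9 := hx'.trans (cl_lip _ _)
    rw [FF_cc_mul, add_sub_cancel_left] at h9
    exact h9
  exact ⟨B, e, (cc : Ga A.G), fun j => (aa (Nat.unpair j).1 (Nat.unpair j).2 : Ga A.G),
    fun n => (ab z n : Ga A.G), fun n i => (tt n i : Ga A.G), h1, h2, h3, aa_free, ab_free z,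
    h6, h7, h8⟩

end Pool.Agent.Q184.BG
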