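import Pool.Agent.Q184.BG.Basic

/-!
Extensions: HNN extensions shifting a free family, amalgamated products, unions of chains.
-/

set_option autoImplicit false

namespace Pool.Agent.Q184.BG

open Set

/-! ### The shift -/

section Shift

variable {G : Type} [Group G]

/-- The subgroup generated by the family. -/
abbrev K0 (a : ℕ → G) : Subgroup G := (FreeGroup.lift a).range

lemma lift_succ (a : ℕ → G) (w : FreeGroup ℕ) :
    FreeGroup.lift (fun j => a (j + 1)) w = FreeGroup.lift a (FreeGroup.map Nat.succ w) := by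
  rw [← MonoidHom.comp_apply]
  congr 1
  ext j
  simp

lemma lift_succ_injective {a : ℕ → G} (h : Function.Injective (FreeGroup.lift a)) :
    Function.Injective (FreeGroup.lift (fun j => a (j + 1))) := by
  intro v w hvw
  rw [lift_succ, lift_succ] at hvw
  exact FreeGroup.map_injective (Nat.succ_injective) (h hvw)

/-- The shift isomorphism. -/
noncomputable def sh {a : ℕ → G} (h : Function.Injective (FreeGroup.lift a)) :
    K0 a ≃* K0 (fun j => a (j + 1)) :=
  (MonoidHom.ofInjective h).symm.trans (MonoidHom.ofInjective (lift_succ_injective h))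

lemma sh_apply {a : ℕ → G} (h : Function.Injective (FreeGroup.lift a)) (w : FreeGroup ℕ)
    (k : K0 a) (hw : FreeGroup.lift a w = k) :
    ((sh h k : K0 (fun j => a (j + 1))) : G) = FreeGroup.lift (fun j => a (j + 1)) w := by
  unfold sh
  rw [MulEquiv.trans_apply]
  have : (MonoidHom.ofInjective h).symm k = w := by
    rw [MulEquiv.symm_apply_eq]
    exact Subtype.ext hw.symm
  rw [this]
  rfl

end Shift

lemma K0_inv {A : FG} {a : ℕ → A.G} (hinv : ∀ j y, A.f (a j * y) = A.f y) {k : A.G}
    (hk : k ∈ K0 a) (y : A.G) : A.f (k * y) = A.f y := by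
  obtain ⟨w, rfl⟩ := hk
  induction w using FreeGroup.induction_on generalizing y with
  | C1 => simp
  | of x => rw [FreeGroup.lift_apply_of]; exact hinv x y
  | inv_of x _ =>
    rw [map_inv, FreeGroup.lift_apply_of]
    have := hinv x ((a x)⁻¹ * y)
    rw [mul_inv_cancel_left] at this
    exact this.symm
  | mul v w hv hw => rw [map_mul, mul_assoc, hv, hw]

theorem shift_step (A : FG) (a : ℕ → A.G) (hfree : Function.Injective (FreeGroup.lift a))
    (hinv : ∀ j y, A.f (a j * y) = A.f y) :
    ∃ (B : FG) (e : CE A B) (x : B.G), (∀ j, x * e.ι (a j) = e.ι (a (j + 1)) * x) ∧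
      ∀ y, B.f (x * y) = B.f y := by
  classical
  let φ := sh hfree
  let Γ := HNNExtension A.G (K0 a) (K0 (fun j => a (j + 1))) φ
  let of : A.G →* Γ := HNNExtension.of
  have hof : Function.Injective of := HNNExtension.of_injective φ
  let t : Γ := HNNExtension.t
  have hk : ∀ k ∈ K0 a, ∀ y, A.f (k * y) = A.f y := fun k hk y => K0_inv hinv hk y
  have hk' : ∀ k ∈ K0 (fun j => a (j + 1)), ∀ y, A.f (k * y) = A.f y :=
    fun k hk y => K0_inv (a := fun j => a (j + 1)) (fun j y => hinv (j + 1) y) hk y
  let Φ : Γ →* Equiv.Perm (Γ × ℝ) := HNNExtension.lift (emb of A.f) (bp t (fun _ => 0)) (by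
    intro k
    rw [emb_apply, emb_apply, bp_mul, bp_mul]
    congr 1
    · exact HNNExtension.t_mul_of k
    · funext y
      rw [cb_zero_of_inv hof (hk _ k.2), cb_zero_of_inv hof (hk' _ (φ k).2)])
  have hΦo : ∀ s, Φ (of s) = bp (of s) (cb of A.f s) := by
    intro s
    exact HNNExtension.lift_of _ _ _ s
  have hΦt : Φ t = bp t (fun _ => 0) := HNNExtension.lift_t _ _ _
  have hΦ : ∀ g, IsBP Φ g := by
    intro g
    induction g using HNNExtension.induction_on with
    | of g => exact ⟨_, hΦo g⟩
    | t => exact ⟨_, hΦt⟩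
    | mul x y hx hy => exact hx.mul hy
    | inv x hx => exact hx.inv
  let F : Γ → ℝ := Fn Φ (A.f 1)
  have hFo : ∀ s y, F (of s * y) = F y + cb of A.f s y := fun s y => Fn_mul hΦ _ (hΦo s) y
  have hFt : ∀ y, F (t * y) = F y := fun y => by
    have := Fn_mul hΦ (A.f 1) hΦt y
    rw [add_zero] at this
    exact this
  have hF1 : F 1 = A.f 1 := Fn_one _ _
  have hFof : ∀ s, F (of s) = A.f s := by
    intro s
    have h1 := hFo s 1
    have h2 := cb_apply hof A.f s 1
    rw [map_one] at h2
    rw [mul_one, h2, hF1, mul_one] at h1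
    rw [h1]
    ring
  have hSO : ∀ s, SO F s := by
    intro g
    induction g using HNNExtension.induction_on with
    | of s =>
      intro ε hε
      have : {g | ε ≤ |F (of s * g) - F g|} = {y | ε ≤ |cb of A.f s y|} := by
        ext y
        simp only [mem_ofPred_eq]
        rw [hFo, add_sub_cancel_left]
      change {g | ε ≤ |F (of s * g) - F g|}.Finite
      rw [this, cb_set hof _ _ hε]
      exact (A.so s ε hε).image _
    | t =>
      intro ε hε
      have : {g | ε ≤ |F (t * g) - F g|} = ∅ := by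
        ext y
        simp only [mem_ofPred_eq, mem_empty_iff_false, iff_false, not_le]
        rw [hFt, sub_self, abs_zero]
        exact hε
      change {g | ε ≤ |F (t * g) - F g|}.Finite
      rw [this]
      exact Set.finite_empty
    | mul x y hx hy => exact hx.mul hy
    | inv x hx => exact hx.inv
  let B : FG := mkFG F hSO
  have hco : ∀ g, cl (F (of g)) = A.f g := by
    intro g
    rw [hFof, cl_eq (A.f0 g) (A.f1 g)]
  have hclo : ∀ (s : A.G) (b : Γ), b ∉ Set.range of → cl (F (of s * b)) = cl (F b) := by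
    intro s b hb
    rw [hFo, cb_not A.f s hb, add_zero]
  let e : CE A B := { ι := of, inj := hof, comp := hco, closed := hclo }
  have hrel : ∀ j, t * of (a j) = of (a (j + 1)) * t := by
    intro j
    have h1 : a j ∈ K0 a := ⟨FreeGroup.of j, FreeGroup.lift_apply_of⟩
    have h2 := HNNExtension.t_mul_of (φ := φ) ⟨a j, h1⟩
    have h3 : ((φ ⟨a j, h1⟩ : K0 (fun j => a (j + 1))) : A.G) = a (j + 1) := by
      have h4 := sh_apply hfree (FreeGroup.of j) ⟨a j, h1⟩ FreeGroup.lift_apply_of
      rw [FreeGroup.lift_apply_of] at h4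
      exact h4
    rw [h3] at h2
    exact h2
  have hinvt : ∀ y, cl (F (t * y)) = cl (F y) := by
    intro y
    rw [hFt]
  exact ⟨B, e, t, hrel, hinvt⟩

/-! ### Amalgamated products -/

theorem pushout_step (A : FG) (I : Type) [Nonempty I] (B : I → FG) (e : ∀ i, CE A (B i)) :
    ∃ (P : FG) (e0 : CE A P) (j : ∀ i, CE (B i) P), ∀ i g, (j i).ι ((e i).ι g) = e0.ι g := by
  classical
  let Γ := Monoid.PushoutI (fun i => (e i).ι)
  have hinj : ∀ i, Function.Injective ((e i).ι) := fun i => (e i).inj
  let of : ∀ i, (B i).G →* Γ := fun i => Monoid.PushoutI.of (φ := fun i => (e i).ι) i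
  let ba : A.G →* Γ := Monoid.PushoutI.base (fun i => (e i).ι)
  have hof : ∀ i, Function.Injective (of i) := fun i => Monoid.PushoutI.of_injective hinj i
  have hba : Function.Injective ba := Monoid.PushoutI.base_injective hinj
  have hob : ∀ i g, of i ((e i).ι g) = ba g :=
    fun i g => Monoid.PushoutI.of_apply_eq_base (fun i => (e i).ι) i g
  have hcomp : ∀ i g y, cb (of i) (B i).f ((e i).ι g) y = cb ba A.f g y := by
    intro i g y
    by_cases hy : y ∈ Set.range ba
    · obtain ⟨a, rfl⟩ := hy
      rw [cb_apply hba, ← hob i a, cb_apply (hof i), ← map_mul, (e i).comp, (e i).comp]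
    · rw [cb_not _ _ hy]
      by_cases hy' : y ∈ Set.range (of i)
      · obtain ⟨b, rfl⟩ := hy'
        rw [cb_apply (hof i), (e i).closed, sub_self]
        rintro ⟨a, rfl⟩
        exact hy ⟨a, (hob i a).symm⟩
      · exact cb_not _ _ hy'
  have hf : ∀ i, (emb (of i) (B i).f).comp ((e i).ι) = emb ba A.f := by
    intro i
    refine MonoidHom.ext fun g => ?_
    change bp (of i ((e i).ι g)) (cb (of i) (B i).f ((e i).ι g)) = bp (ba g) (cb ba A.f g)
    rw [hob]
    congr 1
    funext y
    exact hcomp i g y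
  let Φ : Γ →* Equiv.Perm (Γ × ℝ) :=
    Monoid.PushoutI.lift (fun i => emb (of i) (B i).f) (emb ba A.f) hf
  have hΦo : ∀ i s, Φ (of i s) = bp (of i s) (cb (of i) (B i).f s) := by
    intro i s
    exact Monoid.PushoutI.lift_of (fun i => emb (of i) (B i).f) (emb ba A.f) hf s
  have hΦb : ∀ s, Φ (ba s) = bp (ba s) (cb ba A.f s) := by
    intro s
    exact Monoid.PushoutI.lift_base (fun i => emb (of i) (B i).f) (emb ba A.f) hf s
  have hΦ : ∀ g, IsBP Φ g := by
    intro g
    induction g using Monoid.PushoutI.induction_on with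
    | of i g => exact ⟨_, hΦo i g⟩
    | base h => exact ⟨_, hΦb h⟩
    | mul x y hx hy => exact hx.mul hy
  let F : Γ → ℝ := Fn Φ (A.f 1)
  have hFo : ∀ i s y, F (of i s * y) = F y + cb (of i) (B i).f s y :=
    fun i s y => Fn_mul hΦ _ (hΦo i s) y
  have hFb : ∀ s y, F (ba s * y) = F y + cb ba A.f s y := fun s y => Fn_mul hΦ _ (hΦb s) y
  have hF1 : F 1 = A.f 1 := Fn_one _ _
  have hFof : ∀ i s, F (of i s) = (B i).f s := by
    intro i s
    have h1 := hFo i s 1
    have h2 := cb_apply (hof i) (B i).f s 1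
    rw [map_one] at h2
    have h3 : (B i).f 1 = A.f 1 := by
      have := (e i).comp 1
      rwa [map_one] at this
    rw [mul_one, h2, hF1, mul_one, h3] at h1
    rw [h1]
    ring
  have hFba : ∀ s, F (ba s) = A.f s := by
    intro s
    have h1 := hFb s 1
    have h2 := cb_apply hba A.f s 1
    rw [map_one] at h2
    rw [mul_one, h2, hF1, mul_one] at h1
    rw [h1]
    ring
  have hSO : ∀ s, SO F s := by
    intro g
    induction g using Monoid.PushoutI.induction_on with
    | of i s =>
      intro ε hε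
      have : {g | ε ≤ |F (of i s * g) - F g|} = {y | ε ≤ |cb (of i) (B i).f s y|} := by
        ext y
        simp only [mem_ofPred_eq]
        rw [hFo, add_sub_cancel_left]
      change {g | ε ≤ |F (of i s * g) - F g|}.Finite
      rw [this, cb_set (hof i) _ _ hε]
      exact ((B i).so s ε hε).image _
    | base s =>
      intro ε hε
      have : {g | ε ≤ |F (ba s * g) - F g|} = {y | ε ≤ |cb ba A.f s y|} := by
        ext y
        simp only [mem_ofPred_eq]
        rw [hFb, add_sub_cancel_left]
      change {g | ε ≤ |F (ba s * g) - F g|}.Finite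
      rw [this, cb_set hba _ _ hε]
      exact (A.so s ε hε).image _
    | mul x y hx hy => exact hx.mul hy
  let P : FG := mkFG F hSO
  have hco0 : ∀ g, cl (F (ba g)) = A.f g := by
    intro g
    rw [hFba, cl_eq (A.f0 g) (A.f1 g)]
  have hclo0 : ∀ (s : A.G) (b : Γ), b ∉ Set.range ba → cl (F (ba s * b)) = cl (F b) := by
    intro s b hb
    rw [hFb, cb_not A.f s hb, add_zero]
  have hco : ∀ i g, cl (F (of i g)) = (B i).f g := by
    intro i g
    rw [hFof, cl_eq ((B i).f0 g) ((B i).f1 g)]
  have hclo : ∀ i (s : (B i).G) (b : Γ), b ∉ Set.range (of i) →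
      cl (F (of i s * b)) = cl (F b) := by
    intro i s b hb
    rw [hFo, cb_not (B i).f s hb, add_zero]
  let e0 : CE A P := { ι := ba, inj := hba, comp := hco0, closed := hclo0 }
  let j : ∀ i, CE (B i) P := fun i =>
    { ι := of i, inj := hof i, comp := hco i, closed := hclo i }
  exact ⟨P, e0, j, fun i g => hob i g⟩

/-! ### Unions of chains -/

section Chain

variable (A : ℕ → FG) (e : ∀ n, CE (A n) (A (n + 1)))

/-- The transition maps. -/
def tr (i j : ℕ) (h : i ≤ j) : (A i).G →* (A j).G :=
  Nat.leRecOn (C := fun k => (A i).G →* (A k).G) h (fun {k} φ => (e k).ι.comp φ)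
    (MonoidHom.id _)

lemma tr_self (i : ℕ) : tr A e i i le_rfl = MonoidHom.id _ := by
  unfold tr
  rw [Nat.leRecOn_self]

lemma tr_succ (i j : ℕ) (h : i ≤ j) :
    tr A e i (j + 1) (h.trans (Nat.le_succ j)) = (e j).ι.comp (tr A e i j h) := by
  unfold tr
  rw [Nat.leRecOn_succ h]

lemma tr_tr (i j k : ℕ) (h : i ≤ j) (h' : j ≤ k) (x : (A i).G) :
    tr A e j k h' (tr A e i j h x) = tr A e i k (h.trans h') x := by
  induction k, h' using Nat.le_induction with
  | base => rw [tr_self]; rfl
  | succ k hk ih =>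
    rw [tr_succ A e j k hk, tr_succ A e i k (h.trans hk), MonoidHom.comp_apply,
      MonoidHom.comp_apply, ih]

/-- Transition maps as closed embeddings. -/
lemma tr_ce (i j : ℕ) (h : i ≤ j) : ∃ c : CE (A i) (A j), c.ι = tr A e i j h := by
  induction j, h using Nat.le_induction with
  | base => exact ⟨CE.refl _, (tr_self A e i).symm⟩
  | succ j hj ih =>
    obtain ⟨c, hc⟩ := ih
    refine ⟨c.trans (e j), ?_⟩
    rw [tr_succ A e i j hj, ← hc]
    rfl

instance trDS : DirectedSystem (fun i => (A i).G) (fun i j h => (tr A e i j h : _ → _)) where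
  map_self := by
    intro i x
    rw [tr_self]
    rfl
  map_map := by
    intro k j i hij hjk x
    exact tr_tr A e i j k hij hjk x

end Chain

theorem limit_step (A : ℕ → FG) (e : ∀ n, CE (A n) (A (n + 1))) :
    ∃ (L : FG) (j : ∀ n, CE (A n) L), (∀ n g, (j (n + 1)).ι ((e n).ι g) = (j n).ι g) ∧
      ∀ x : L.G, ∃ n g, (j n).ι g = x := by
  classical
  let Γ := DirectLimit (fun i => (A i).G) (fun i j h => tr A e i j h)
  have hone : ∀ n, (⟦⟨n, 1⟩⟧ : Γ) = 1 := fun n => (DirectLimit.one_def n).symm
  let j0 : ∀ n, (A n).G →* Γ := fun n =>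
    { toFun := fun g => ⟦⟨n, g⟩⟧
      map_one' := hone n
      map_mul' := fun g h => (DirectLimit.mul_def (f := fun i j h => tr A e i j h) n g h).symm }
  have hj0 : ∀ n, Function.Injective (j0 n) := by
    intro n
    refine DirectLimit.mk_injective (fun i j h => tr A e i j h) ?_ n
    intro i k h
    obtain ⟨c, hc⟩ := tr_ce A e i k h
    rw [← hc]
    exact c.inj
  have htr : ∀ i k (h : i ≤ k) (g : (A i).G), j0 k (tr A e i k h g) = j0 i g := by
    intro i k h g
    exact DirectLimit.mk_apply (f := fun i j h => tr A e i j h) i k g h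
  have hex : ∀ x : Γ, ∃ n g, j0 n g = x := by
    intro x
    obtain ⟨i, g, hg⟩ := DirectLimit.exists_eq_mk _ x
    exact ⟨i, g, hg.symm⟩
  let F : Γ → ℝ := DirectLimit.lift _ (fun i g => (A i).f g) (by
    intro i k h g
    obtain ⟨c, hc⟩ := tr_ce A e i k h
    change (A i).f g = (A k).f (tr A e i k h g)
    rw [← hc, c.comp])
  have hF : ∀ n g, F (j0 n g) = (A n).f g := fun n g => rfl
  have hcl : ∀ n (s : (A n).G) (b : Γ), b ∉ Set.range (j0 n) → F (j0 n s * b) = F b := by
    intro n s b hb
    obtain ⟨m, g, rfl⟩ := hex b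
    rcases le_total n m with h | h
    · obtain ⟨c, hc⟩ := tr_ce A e n m h
      rw [← htr n m h, ← map_mul, hF, hF, ← hc]
      apply c.closed
      rintro ⟨a, ha⟩
      apply hb
      refine ⟨a, ?_⟩
      rw [← htr n m h, ← hc, ha]
    · exact absurd ⟨_, htr m n h g⟩ hb
  have hSO : ∀ s, SO F s := by
    intro x
    obtain ⟨n, s, rfl⟩ := hex x
    intro ε hε
    refine (((A n).so s ε hε).image (j0 n)).subset ?_
    intro b hb
    simp only [mem_ofPred_eq] at hb
    by_cases h : b ∈ Set.range (j0 n)
    · obtain ⟨a, rfl⟩ := h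
      rw [← map_mul, hF, hF] at hb
      exact ⟨a, hb, rfl⟩
    · rw [hcl n s b h, sub_self, abs_zero] at hb
      linarith
  let L : FG := mkFG F hSO
  have hco : ∀ n g, cl (F (j0 n g)) = (A n).f g := by
    intro n g
    rw [hF, cl_eq ((A n).f0 g) ((A n).f1 g)]
  have hclo : ∀ n (s : (A n).G) (b : Γ), b ∉ Set.range (j0 n) →
      cl (F (j0 n s * b)) = cl (F b) := by
    intro n s b hb
    rw [hcl n s b hb]
  let j : ∀ n, CE (A n) L := fun n =>
    { ι := j0 n, inj := hj0 n, comp := hco n, closed := hclo n }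
  refine ⟨L, j, ?_, hex⟩
  intro n g
  have h1 := htr n (n + 1) (Nat.le_succ n) g
  have h2 := tr_succ A e n n le_rfl
  rw [tr_self] at h2
  have h3 : tr A e n (n + 1) (Nat.le_succ n) g = (e n).ι g := by
    rw [h2]
    rfl
  rw [h3] at h1
  exact h1

end Pool.Agent.Q184.BG
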