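import Pool.Agent.Q184.BG.Free3
import Pool.Agent.Q184.BG.Steps

/-!
The strongly distorted limit object.
-/

set_option autoImplicit false

namespace Pool.Agent.Q184.BG

open Set

section Words

variable {G : Type} [Group G]

/-- Conjugates of `a` by powers of `x`. -/
def aw (x a : G) (j : ℕ) : G := x ^ j * a * (x ^ j)⁻¹

/-- Partial products along a polygon. -/
def tw (c x a : G) (n : ℕ) : ℕ → G
  | 0 => aw x a (Nat.pair n 0)
  | i + 1 => aw x a (Nat.pair n (i + 1)) * c * tw c x a n i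

/-- The words expressing all sequences. -/
def Ww (c x a x' a' : G) (n : ℕ) : G := aw x' a' n * c * tw c x a n (n + 2)

lemma map_aw {H : Type} [Group H] (φ : G →* H) (x a : G) (j : ℕ) :
    φ (aw x a j) = aw (φ x) (φ a) j := by
  simp [aw]

lemma map_tw {H : Type} [Group H] (φ : G →* H) (c x a : G) (n i : ℕ) :
    φ (tw c x a n i) = tw (φ c) (φ x) (φ a) n i := by
  induction i with
  | zero => exact map_aw φ x a _
  | succ i ih =>
    unfold tw
    rw [map_mul, map_mul, map_aw, ih]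

lemma map_Ww {H : Type} [Group H] (φ : G →* H) (c x a x' a' : G) (n : ℕ) :
    φ (Ww c x a x' a' n) = Ww (φ c) (φ x) (φ a) (φ x') (φ a') n := by
  unfold Ww
  rw [map_mul, map_mul, map_aw, map_tw]

lemma aw_of_shift {x : G} {a : ℕ → G} (h : ∀ j, x * a j = a (j + 1) * x) (j : ℕ) :
    a j = aw x (a 0) j := by
  induction j with
  | zero => simp [aw]
  | succ j ih =>
    have h1 : a (j + 1) = x * a j * x⁻¹ := by
      rw [h j, mul_inv_cancel_right]
    rw [h1, ih]
    unfold aw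
    rw [pow_succ']
    group

end Words

/-- The extension `e` expresses the sequence `z`. -/
def OS {A B : FG} (ι : A.G → B.G) (z : ℕ → A.G) : Prop :=
  ∃ c x a x' a' : B.G, (∀ n, ι (z n) = Ww c x a x' a' n) ∧
    (∀ y, B.f (x * y) = B.f y) ∧ (∀ y, B.f (a * y) = B.f y) ∧
    (∀ y, B.f (x' * y) = B.f y) ∧ (∀ y, B.f (a' * y) = B.f y) ∧
    (∀ j N : ℕ, (∀ n ≤ j, Cov (mv A (z n) (1 / ((j : ℝ) + 1))) N) →
        Cov (mv B c (1 / ((j : ℝ) + 1))) (Th j N))

lemma OS.trans {A B C : FG} {ι : A.G → B.G} {z : ℕ → A.G} (h : OS ι z) (e : CE B C) :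
    OS (fun g => e.ι (ι g)) z := by
  obtain ⟨c, x, a, x', a', h1, h2, h3, h4, h5, h6⟩ := h
  refine ⟨e.ι c, e.ι x, e.ι a, e.ι x', e.ι a', ?_, e.inv h2, e.inv h3, e.inv h4, e.inv h5, ?_⟩
  · intro n
    change e.ι (ι (z n)) = _
    rw [h1, map_Ww]
  · intro j N h
    exact e.cov c (by positivity) (h6 j N h)

theorem one_step (A : FG) (z : ℕ → A.G) : ∃ (B : FG) (e : CE A B), OS e.ι z := by
  obtain ⟨B, e, c, a, a', t, ht0, hts, hz, hfa, hfa', hia, hia', hcov⟩ := free_step A z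
  obtain ⟨C, e1, x, hx, hxi⟩ := shift_step B a hfa hia
  have hfa1 : Function.Injective (FreeGroup.lift (fun n => e1.ι (a' n))) := by
    have : FreeGroup.lift (fun n => e1.ι (a' n)) = e1.ι.comp (FreeGroup.lift a') := by
      ext n
      simp
    rw [this]
    exact e1.inj.comp hfa'
  obtain ⟨D, e2, x', hx', hxi'⟩ := shift_step C (fun n => e1.ι (a' n)) hfa1
    (fun j y => e1.inv (hia' j) y)
  refine ⟨D, (e.trans e1).trans e2, e2.ι (e1.ι c), e2.ι x, e2.ι (e1.ι (a 0)), x',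
    e2.ι (e1.ι (a' 0)), ?_, e2.inv hxi, e2.inv (e1.inv (hia 0)), hxi', e2.inv (e1.inv (hia' 0)), ?_⟩
  · intro n
    have h1 : ∀ j, e1.ι (a j) = aw x (e1.ι (a 0)) j := aw_of_shift hx
    have h2 : ∀ j, e2.ι (e1.ι (a' j)) = aw x' (e2.ι (e1.ι (a' 0))) j :=
      aw_of_shift (a := fun n => e2.ι (e1.ι (a' n))) hx'
    have h3 : ∀ i, e1.ι (t n i) = tw (e1.ι c) x (e1.ι (a 0)) n i := by
      intro i
      induction i with
      | zero => rw [ht0, h1]; rfl
      | succ i ih =>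
        rw [hts, map_mul, map_mul, h1, ih]
        rfl
    rw [CE.trans_ι, CE.trans_ι, hz, map_mul, map_mul, map_mul, map_mul, h2, h3, map_tw]
    rfl
  · intro j N h
    exact e2.cov _ (by positivity) (e1.cov _ (by positivity) (hcov j N h))

theorem all_step (A : FG) : ∃ (B : FG) (e : CE A B), ∀ z : ℕ → A.G, OS e.ι z := by
  choose B e h using one_step A
  obtain ⟨P, e0, j, hj⟩ := pushout_step A (ℕ → A.G) B e
  refine ⟨P, e0, ?_⟩
  intro z
  have h1 := (h z).trans (j z)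
  have h2 : (fun g => (j z).ι ((e z).ι g)) = e0.ι := funext (hj z)
  rw [h2] at h1
  exact h1

lemma cov_one (A : FG) (j N : ℕ) : Cov (mv A 1 (1 / ((j : ℝ) + 1))) N := by
  apply Cov.empty
  ext g
  simp only [mv, mem_ofPred_eq, one_mul, sub_self, abs_zero, mem_empty_iff_false, iff_false, not_le]
  positivity

theorem limit_object (A : FG) : ∃ (H : FG) (_ : CE A H), ∀ (k : ℕ) (z : ℕ → H.G),
    ∃ c x a x' a' : H.G, (∀ n ≤ k, z n = Ww c x a x' a' n) ∧
    (∀ y, H.f (x * y) = H.f y) ∧ (∀ y, H.f (a * y) = H.f y) ∧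
    (∀ y, H.f (x' * y) = H.f y) ∧ (∀ y, H.f (a' * y) = H.f y) ∧
    (∀ j N : ℕ, (∀ n ≤ j, Cov (mv H (z n) (1 / ((j : ℝ) + 1))) N) →
        Cov (mv H c (1 / ((j : ℝ) + 1))) (Th j N)) := by
  classical
  choose nx en hn using all_step
  let ch : ℕ → FG := fun n => Nat.rec A (fun _ B => nx B) n
  let e : ∀ n, CE (ch n) (ch (n + 1)) := fun n => en (ch n)
  obtain ⟨H, j, hj, hex⟩ := limit_step ch e
  refine ⟨H, j 0, ?_⟩
  intro k z
  have hup : ∀ (m m' : ℕ), m ≤ m' → ∀ g : (ch m).G, ∃ g' : (ch m').G, (j m').ι g' = (j m).ι g := by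
    intro m m' h
    induction m', h using Nat.le_induction with
    | base => exact fun g => ⟨g, rfl⟩
    | succ m' hm' ih =>
      intro g
      obtain ⟨g', hg'⟩ := ih g
      exact ⟨(e m').ι g', by rw [hj, hg']⟩
  have hex' : ∀ n : ℕ, ∃ (m : ℕ) (g : (ch m).G), (j m).ι g = z n := fun n => hex (z n)
  choose m g hg using hex'
  let M : ℕ := (Finset.range (k + 1)).sup m
  let o : (ch M).G := @One.one (ch M).G (ch M).inst.toOne
  have hM : ∀ n : ℕ, ∃ g' : (ch M).G, (n ≤ k → (j M).ι g' = z n) ∧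
      (k < n → g' = o) := by
    intro n
    by_cases hn : n ≤ k
    · obtain ⟨g', hg'⟩ := hup (m n) M (Finset.le_sup (f := m) (Finset.mem_range.2 (by omega))) (g n)
      exact ⟨g', fun _ => by rw [hg', hg], fun h => by omega⟩
    · exact ⟨o, fun h => by omega, fun _ => rfl⟩
  choose z' hz1 hz2 using hM
  obtain ⟨c, x, a, x', a', h1, h2, h3, h4, h5, h6⟩ := hn (ch M) z'
  refine ⟨(j (M + 1)).ι c, (j (M + 1)).ι x, (j (M + 1)).ι a, (j (M + 1)).ι x', (j (M + 1)).ι a',
    ?_, (j (M + 1)).inv h2, (j (M + 1)).inv h3, (j (M + 1)).inv h4, (j (M + 1)).inv h5, ?_⟩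
  · intro n hn
    rw [← hz1 n hn, ← hj M, ← map_Ww]
    congr 1
    exact h1 n
  · intro i N h
    refine (j (M + 1)).cov c (by positivity) (h6 i N ?_)
    intro n hni
    by_cases hn : n ≤ k
    · refine (j M).cov' (z' n) (by positivity) ?_
      rw [hz1 n hn]
      exact h n hni
    · rw [hz2 n (by omega)]
      exact cov_one (ch M) i N

end Pool.Agent.Q184.BG
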