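import Pool.Agent.Q184.BG.Ultra

/-!
A strongly distorted group with a slowly oscillating function which is not constant at infinity.
-/

set_option autoImplicit false

namespace Pool.Agent.Q184.BG

open Set

/-- The base object: the integers with the indicator of the nonnegative integers. -/
noncomputable def ZB : FG where
  G := Multiplicative ℤ
  f := fun g => if 0 ≤ Multiplicative.toAdd g then 1 else 0
  f0 := by
    intro g
    split_ifs <;> norm_num
  f1 := by
    intro g
    split_ifs <;> norm_num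
  so := by
    intro s ε hε
    have h : (Set.Icc (-|Multiplicative.toAdd s|) (|Multiplicative.toAdd s|)).Finite :=
      Set.finite_Icc _ _
    refine (h.preimage (f := fun g : Multiplicative ℤ => Multiplicative.toAdd g)
      (Multiplicative.toAdd.injective.injOn)).subset ?_
    intro g hg
    simp only [mem_ofPred_eq, toAdd_mul] at hg
    simp only [Set.mem_preimage, Set.mem_Icc]
    by_contra hcon
    have h1 : (0 ≤ Multiplicative.toAdd s + Multiplicative.toAdd g) ↔
        (0 ≤ Multiplicative.toAdd g) := by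
      have h2 := neg_abs_le (Multiplicative.toAdd s)
      have h3 := le_abs_self (Multiplicative.toAdd s)
      constructor
      · intro h4
        by_contra h5
        apply hcon
        constructor <;> linarith
      · intro h4
        by_contra h5
        apply hcon
        constructor <;> linarith
    simp only [h1, sub_self, abs_zero] at hg
    linarith

theorem core : ∃ (G : Type) (_ : Group G) (f : G → ℝ),
    (∀ z : ℕ → G, ∃ c x a x' a' : G, ∀ n, z n = Ww c x a x' a' n) ∧
    (∀ (s : G) (ε : ℝ), 0 < ε → {g | ε ≤ |f (s * g) - f g|}.Finite) ∧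
    {g | f g = 1}.Infinite ∧ {g | f g = 0}.Infinite := by
  obtain ⟨H, e, hH⟩ := limit_object ZB
  refine ⟨KK H, inferInstance, fun g => Fu (g : Up H), ultra_dist hH,
    fun s ε hε => Fu_so s hε, ?_⟩
  let κ : ℤ → KK H := fun n =>
    ⟨((fun _ => e.ι (Multiplicative.ofAdd n) : ℕ → H.G) : Up H), _, rfl, BR.const _⟩
  have hκ : Function.Injective κ := by
    intro m n hmn
    have h1 := congrArg Subtype.val hmn
    have h2 := Filter.Germ.coe_eq.1 h1
    obtain ⟨_, h3⟩ := h2.exists
    exact Multiplicative.ofAdd.injective (e.inj h3)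
  have hf : ∀ n : ℤ, Fu ((κ n : KK H) : Up H) = if 0 ≤ n then 1 else 0 := by
    intro n
    have h1 := Fu_spec (H := H) (fun _ => e.ι (Multiplicative.ofAdd n))
    have h2 := tendsto_nhds_unique h1 tendsto_const_nhds
    refine h2.trans ?_
    exact e.comp (Multiplicative.ofAdd n : Multiplicative ℤ)
  constructor
  · have h1 : (κ '' Set.Ici 0).Infinite := (Set.Ici_infinite (0 : ℤ)).image hκ.injOn
    refine h1.mono ?_
    rintro _ ⟨n, hn, rfl⟩
    change Fu ((κ n : KK H) : Up H) = 1
    rw [hf, if_pos (Set.mem_Ici.1 hn)]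
  · have h1 : (κ '' Set.Iio 0).Infinite := (Set.Iio_infinite (0 : ℤ)).image hκ.injOn
    refine h1.mono ?_
    rintro _ ⟨n, hn, rfl⟩
    change Fu ((κ n : KK H) : Up H) = 0
    rw [hf, if_neg (not_le.2 (Set.mem_Iio.1 hn))]

/-! ### Exhaustions of strongly distorted groups -/

section Exh

variable {G : Type} [Group G]

/-- Length bound. -/
def ht (n : ℕ) : ℕ → ℕ
  | 0 => 3 + Nat.pair n 0
  | i + 1 => ht n i + Nat.pair n (i + 1) + 5

variable {X : ℕ → Set G} (hmono : Monotone X) (hinv : ∀ n, ∀ g ∈ X n, g⁻¹ ∈ X n)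
  (hmul : ∀ n, ∀ g ∈ X n, ∀ h ∈ X n, g * h ∈ X (n + 1))

include hmono hinv hmul

lemma pow_mem {m : ℕ} {x : G} (hx : x ∈ X m) (j : ℕ) : x ^ j ∈ X (m + 1 + j) := by
  induction j with
  | zero =>
    have := hmul m x hx x⁻¹ (hinv m x hx)
    rw [mul_inv_cancel] at this
    simpa using this
  | succ j ih =>
    rw [pow_succ]
    exact hmul _ _ ih _ (hmono (by omega) hx)

lemma aw_mem {m : ℕ} {x a : G} (hx : x ∈ X m) (ha : a ∈ X m) (j : ℕ) :
    aw x a j ∈ X (m + 3 + j) := by
  unfold aw
  have h1 := pow_mem hmono hinv hmul hx j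
  have h2 := hmul _ _ h1 a (hmono (by omega) ha)
  have h3 := hmul _ _ h2 _ (hmono (by omega) (hinv _ _ h1))
  exact hmono (by omega) h3

lemma tw_mem {m : ℕ} {c x a : G} (hc : c ∈ X m) (hx : x ∈ X m) (ha : a ∈ X m) (n i : ℕ) :
    tw c x a n i ∈ X (m + ht n i) := by
  induction i with
  | zero =>
    have := aw_mem hmono hinv hmul hx ha (Nat.pair n 0)
    have h0 : ht n 0 = 3 + Nat.pair n 0 := rfl
    exact hmono (by omega) this
  | succ i ih =>
    have h1 := aw_mem hmono hinv hmul hx ha (Nat.pair n (i + 1))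
    have h2 := hmul _ _ h1 c (hmono (by omega) hc)
    have h3 := hmul (m + ht n i + Nat.pair n (i + 1) + 4) _ (hmono (by omega) h2) _
      (hmono (by omega) ih)
    have h0 : ht n (i + 1) = ht n i + Nat.pair n (i + 1) + 5 := rfl
    exact hmono (by omega) h3

lemma Ww_mem {m : ℕ} {c x a x' a' : G} (hc : c ∈ X m) (hx : x ∈ X m) (ha : a ∈ X m)
    (hx' : x' ∈ X m) (ha' : a' ∈ X m) (n : ℕ) :
    Ww c x a x' a' n ∈ X (m + (ht n (n + 2) + n + 5)) := by
  have h1 := aw_mem hmono hinv hmul hx' ha' n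
  have h2 := hmul _ _ h1 c (hmono (by omega) hc)
  have h3 := tw_mem hmono hinv hmul hc hx ha n (n + 2)
  have h4 := hmul (m + (ht n (n + 2) + n + 4)) _ (hmono (by omega) h2) _ (hmono (by omega) h3)
  exact hmono (by omega) h4

theorem exhaust (hd : ∀ z : ℕ → G, ∃ c x a x' a' : G, ∀ n, z n = Ww c x a x' a' n)
    (hX : ∀ g, ∃ n, g ∈ X n) : ∃ n, X n = Set.univ := by
  by_contra hcon
  push Not at hcon
  have h1 : ∀ n, ∃ g, g ∉ X n := by
    intro n
    by_contra h
    push Not at h
    exact hcon n (Set.eq_univ_of_forall h)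
  choose z hz using fun n => h1 (n + (ht n (n + 2) + n + 5))
  obtain ⟨c, x, a, x', a', hW⟩ := hd z
  obtain ⟨m1, h1⟩ := hX c
  obtain ⟨m2, h2⟩ := hX x
  obtain ⟨m3, h3⟩ := hX a
  obtain ⟨m4, h4⟩ := hX x'
  obtain ⟨m5, h5⟩ := hX a'
  let m := m1 + m2 + m3 + m4 + m5
  apply hz m
  rw [hW]
  exact Ww_mem hmono hinv hmul (hmono (by omega) h1) (hmono (by omega) h2)
    (hmono (by omega) h3) (hmono (by omega) h4) (hmono (by omega) h5) m

end Exh

end Pool.Agent.Q184.BG
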