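import Mathlib

/-!
Slowly oscillating functions on the full permutation groups are constant at infinity.
-/

set_option autoImplicit false

namespace Pool.Agent.Q184.BG.Sym

open Set Filter Topology

universe u

/-- Left translations move `f` little at infinity. -/
def SOf {G : Type u} [Group G] (f : G → ℝ) : Prop :=
  ∀ s : G, Tendsto (fun g => f (s * g) - f g) cofinite (𝓝 0)

lemma countable_ne {X : Type*} {φ : X → ℝ} {c : ℝ} (h : Tendsto φ cofinite (𝓝 c)) :
    {x | φ x ≠ c}.Countable := by
  have h1 : {x | φ x ≠ c} ⊆ ⋃ n : ℕ, {x | ¬ dist (φ x) c < 1 / ((n : ℝ) + 1)} := by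
    intro x hx
    have h2 : 0 < dist (φ x) c := dist_pos.2 hx
    obtain ⟨n, hn⟩ := exists_nat_one_div_lt h2
    exact Set.mem_iUnion.2 ⟨n, not_lt.2 hn.le⟩
  refine Set.Countable.mono h1 (Set.countable_iUnion (fun n => ?_))
  have h2 := Metric.tendsto_nhds.1 h (1 / ((n : ℝ) + 1)) (by positivity)
  exact (Filter.eventually_cofinite.1 h2).countable

lemma exists_notMem {A : Type*} [Uncountable A] {D : Set A} (h : D.Countable) : ∃ a, a ∉ D := by
  by_contra hcon
  push Not at hcon
  have : (Set.univ : Set A).Countable := h.mono (fun x _ => hcon x)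
  exact not_countable (Set.countable_univ_iff.1 this)

section Lim

variable {G : Type u} [Group G] {V A : Type*} {f : G → ℝ} {α : V → G} {β : A → G}

lemma lemA (hf : SOf f) (hα : Function.Injective α) (hβ : Function.Injective β)
    (hc : ∀ v a, α v * β a = β a * α v) (h : G) {z : ℕ → V} (hz : Function.Injective z) :
    ∃ D : Set A, D.Countable ∧ ∀ a, a ∉ D →
      Tendsto (fun n => f (α (z n) * h)) atTop (𝓝 (f (β a * h))) := by
  refine ⟨⋃ n, {a | f (α (z n) * (β a * h)) - f (β a * h) ≠ 0}, ?_, ?_⟩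
  · refine Set.countable_iUnion (fun n => ?_)
    have h1 := countable_ne (hf (α (z n)))
    refine (h1.preimage (f := fun a => β a * h) ?_)
    intro a a' haa'
    exact hβ (mul_right_cancel haa')
  · intro a ha
    have h1 : ∀ n, f (α (z n) * (β a * h)) = f (β a * h) := by
      intro n
      by_contra hcon
      exact ha (Set.mem_iUnion.2 ⟨n, sub_ne_zero.2 hcon⟩)
    have h2 : Function.Injective (fun n => α (z n) * h) := by
      intro m n hmn
      exact hz (hα (mul_right_cancel hmn))
    have h3 : Tendsto (fun n => α (z n) * h) atTop cofinite := by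
      rw [← Nat.cofinite_eq_atTop]
      exact h2.tendsto_cofinite
    have h4 := (hf (β a)).comp h3
    have h5 : Tendsto (fun n => f (β a * h) - (f (β a * (α (z n) * h)) - f (α (z n) * h))) atTop
        (𝓝 (f (β a * h) - 0)) := tendsto_const_nhds.sub h4
    rw [sub_zero] at h5
    refine h5.congr (fun n => ?_)
    rw [← mul_assoc, ← hc, mul_assoc, h1 n]
    ring

lemma lim_ex [Infinite V] [Uncountable A] (hf : SOf f) (hα : Function.Injective α)
    (hβ : Function.Injective β) (hc : ∀ v a, α v * β a = β a * α v) (h : G) :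
    ∃ c : ℝ, Tendsto (fun v => f (α v * h)) cofinite (𝓝 c) := by
  obtain ⟨z⟩ : Nonempty (ℕ ↪ V) := ⟨Infinite.natEmbedding V⟩
  obtain ⟨D, hD, hD'⟩ := lemA hf hα hβ hc h z.injective
  obtain ⟨x, hx⟩ := exists_notMem hD
  refine ⟨f (β x * h), ?_⟩
  rw [Metric.tendsto_nhds]
  intro ε hε
  rw [Filter.eventually_cofinite]
  by_contra hS
  have hS' : {v | ¬ dist (f (α v * h)) (f (β x * h)) < ε}.Infinite := hS
  let z' : ℕ → V := fun n => (hS'.natEmbedding _ n : V)
  have hz' : Function.Injective z' := by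
    intro m n hmn
    exact (hS'.natEmbedding _).injective (Subtype.ext hmn)
  have hz'' : ∀ n, ¬ dist (f (α (z' n) * h)) (f (β x * h)) < ε :=
    fun n => (hS'.natEmbedding _ n).2
  obtain ⟨D₂, hD₂, hD₂'⟩ := lemA hf hα hβ hc h hz'
  obtain ⟨y, hy⟩ := exists_notMem (hD.union hD₂)
  have h1 := hD' y (fun h => hy (Or.inl h))
  have h2 := hD₂' y (fun h => hy (Or.inr h))
  have h3 : f (β y * h) = f (β x * h) := tendsto_nhds_unique h1 (hD' x hx)
  rw [h3] at h2
  obtain ⟨n, hn⟩ := ((Metric.tendsto_nhds.1 h2) ε hε).exists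
  exact hz'' n hn

lemma seq_lim [Uncountable V] (hf : SOf f) {g : ℕ → G}
    (hg : Function.Injective g) {c : ℝ}
    (hl : ∀ n, Tendsto (fun v => f (α v * g n)) cofinite (𝓝 c)) :
    Tendsto (fun n => f (g n)) atTop (𝓝 c) := by
  obtain ⟨v, hv⟩ := exists_notMem (A := V) (D := ⋃ n, {v | f (α v * g n) ≠ c})
    (Set.countable_iUnion (fun n => countable_ne (hl n)))
  have h1 : ∀ n, f (α v * g n) = c := by
    intro n
    by_contra hcon
    exact hv (Set.mem_iUnion.2 ⟨n, hcon⟩)
  have h3 : Tendsto g atTop cofinite := by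
    rw [← Nat.cofinite_eq_atTop]
    exact hg.tendsto_cofinite
  have h4 := (hf (α v)).comp h3
  have h5 : Tendsto (fun n => c - (f (α v * g n) - f (g n))) atTop (𝓝 (c - 0)) :=
    tendsto_const_nhds.sub h4
  rw [sub_zero] at h5
  refine h5.congr (fun n => ?_)
  rw [h1 n]
  ring

end Lim

/-! ### Permutation groups -/

section Perm

variable {X : Type u}

open Classical in
/-- Permutations supported in `P`. -/
noncomputable def em (P : Set X) : Equiv.Perm P →* Equiv.Perm X := Equiv.Perm.ofSubtype

open Classical in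
lemma em_inj (P : Set X) : Function.Injective (em P) := Equiv.Perm.ofSubtype_injective

open Classical in
lemma em_not {P : Set X} (g : Equiv.Perm P) {x : X} (hx : x ∉ P) : em P g x = x :=
  Equiv.Perm.ofSubtype_apply_of_not_mem g hx

open Classical in
lemma em_mem {P : Set X} (g : Equiv.Perm P) {x : X} (hx : x ∈ P) : em P g x ∈ P := by
  unfold em
  rw [Equiv.Perm.ofSubtype_apply_of_mem g hx]
  exact (g ⟨x, hx⟩).2

lemma em_comm {P Q : Set X} (hPQ : Disjoint P Q) (g : Equiv.Perm P) (h : Equiv.Perm Q) :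
    em P g * em Q h = em Q h * em P g := by
  ext x
  rw [Equiv.Perm.mul_apply, Equiv.Perm.mul_apply]
  by_cases hx : x ∈ P
  · have hxQ : x ∉ Q := Set.disjoint_left.1 hPQ hx
    have hgQ : em P g x ∉ Q := Set.disjoint_left.1 hPQ (em_mem g hx)
    rw [em_not h hxQ, em_not h hgQ]
  · by_cases hx' : x ∈ Q
    · have hhP : em Q h x ∉ P := Set.disjoint_right.1 hPQ (em_mem h hx')
      rw [em_not g hx, em_not g hhP]
    · rw [em_not g hx, em_not h hx', em_not g hx]

open Classical in
/-- Every permutation fixing the complement of `P` comes from `P`. -/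
lemma em_of_fix {P : Set X} {g : Equiv.Perm X} (hg : ∀ x, x ∉ P → g x = x) :
    ∃ h : Equiv.Perm P, em P h = g := by
  have h1 : ∀ x, x ∈ P ↔ g x ∈ P := by
    intro x
    constructor
    · intro hx
      by_contra hcon
      have := hg _ hcon
      exact hcon (by rw [g.injective this]; exact hx)
    · intro hx
      by_contra hcon
      rw [hg x hcon] at hx
      exact hcon hx
  refine ⟨g.subtypePerm (p := fun x => x ∈ P) (fun x => (h1 x).symm), ?_⟩
  apply Equiv.Perm.ofSubtype_subtypePerm
  intro x hx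
  by_contra hcon
  exact hx (hg x hcon)

lemma uncountable_perm {P : Set X} (hP : P.Infinite) : Uncountable (Equiv.Perm P) := by
  have : Infinite P := hP.to_subtype
  rw [← Cardinal.aleph0_lt_mk_iff, Cardinal.mk_perm_eq_two_power]
  exact (Cardinal.aleph0_le_mk P).trans_lt (Cardinal.cantor _)

/-- Infinite sets with infinite complement. -/
def Gd (P : Set X) : Prop := P.Infinite ∧ Pᶜ.Infinite

lemma split {S : Set X} (hS : S.Infinite) :
    ∃ T₁ T₂ : Set X, T₁ ⊆ S ∧ T₂ ⊆ S ∧ Disjoint T₁ T₂ ∧ T₁.Infinite ∧ T₂.Infinite := by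
  let z : ℕ → X := fun n => (hS.natEmbedding _ n : X)
  have hz : Function.Injective z := by
    intro m n hmn
    exact (hS.natEmbedding _).injective (Subtype.ext hmn)
  have hzS : ∀ n, z n ∈ S := fun n => (hS.natEmbedding _ n).2
  refine ⟨Set.range (fun n => z (2 * n)), Set.range (fun n => z (2 * n + 1)), ?_, ?_, ?_, ?_, ?_⟩
  · rintro _ ⟨n, rfl⟩
    exact hzS _
  · rintro _ ⟨n, rfl⟩
    exact hzS _
  · rw [Set.disjoint_left]
    rintro _ ⟨n, rfl⟩ ⟨m, hm⟩
    have := hz hm
    omega
  · apply Set.infinite_range_of_injective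
    intro m n hmn
    have := hz hmn
    omega
  · apply Set.infinite_range_of_injective
    intro m n hmn
    have := hz hmn
    omega

lemma exists_between {P P' : Set X} (hP : Gd P) (hP' : Gd P') :
    ∃ Q : Set X, Gd Q ∧ (P ∩ Q).Infinite ∧ (Q ∩ P').Infinite := by
  obtain ⟨P₁, W, h1, h2, h3, h4, h5⟩ := split hP.1
  by_cases hcase : (P' \ W).Infinite
  · refine ⟨P₁ ∪ (P' \ W), ⟨h4.mono Set.subset_union_left, ?_⟩, ?_, ?_⟩
    · refine h5.mono ?_
      intro x hx hcon
      rcases hcon with hcon | hcon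
      · exact Set.disjoint_left.1 h3 hcon hx
      · exact hcon.2 hx
    · exact h4.mono (fun x hx => ⟨h1 hx, Or.inl hx⟩)
    · exact hcase.mono (fun x hx => ⟨Or.inr hx, hx.1⟩)
  · have h6 : (P' ∩ W).Infinite := by
      by_contra hcon
      rw [Set.not_infinite] at hcase hcon
      apply hP'.1
      have : P' = (P' ∩ W) ∪ (P' \ W) := (Set.inter_union_sdiff P' W).symm
      rw [this]
      exact hcon.union hcase
    obtain ⟨S₁, S₂, g1, g2, g3, g4, g5⟩ := split h6
    refine ⟨P₁ ∪ S₁, ⟨h4.mono Set.subset_union_left, ?_⟩, ?_, ?_⟩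
    · refine g5.mono ?_
      intro x hx hcon
      rcases hcon with hcon | hcon
      · exact Set.disjoint_left.1 h3 hcon (g2 hx).2
      · exact Set.disjoint_left.1 g3 hcon hx
    · exact h4.mono (fun x hx => ⟨h1 hx, Or.inl hx⟩)
    · exact g4.mono (fun x hx => ⟨Or.inr hx, (g1 hx).1⟩)

variable {f : Equiv.Perm X → ℝ}

lemma lim_perm (hf : SOf f) {P : Set X} (hP : Gd P) (h : Equiv.Perm X) :
    ∃ c : ℝ, Tendsto (fun v : Equiv.Perm P => f (em P v * h)) cofinite (𝓝 c) := by
  have h1 : Uncountable (Equiv.Perm P) := uncountable_perm hP.1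
  have h2 : Uncountable (Equiv.Perm (Pᶜ : Set X)) := uncountable_perm hP.2
  exact lim_ex (α := fun v => em P v) (β := fun a => em Pᶜ a) hf (em_inj P) (em_inj Pᶜ)
    (fun v a => em_comm disjoint_compl_right v a) h

lemma lim_sub {P R : Set X} (hR : R ⊆ P) {h : Equiv.Perm X} {c : ℝ}
    (hc : Tendsto (fun v : Equiv.Perm P => f (em P v * h)) cofinite (𝓝 c)) :
    Tendsto (fun v : Equiv.Perm R => f (em R v * h)) cofinite (𝓝 c) := by
  have h1 : ∀ v : Equiv.Perm R, ∃ w : Equiv.Perm P, em P w = em R v := by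
    intro v
    apply em_of_fix
    intro x hx
    exact em_not v (fun h => hx (hR h))
  choose ρ hρ using h1
  have h2 : Function.Injective ρ := by
    intro v w hvw
    apply em_inj R
    rw [← hρ, ← hρ, hvw]
  refine (hc.comp h2.tendsto_cofinite).congr (fun v => ?_)
  rw [Function.comp_apply, hρ]

lemma lim_eq {P Q : Set X} (hPQ : (P ∩ Q).Infinite) {h : Equiv.Perm X} {c d : ℝ}
    (hc : Tendsto (fun v : Equiv.Perm P => f (em P v * h)) cofinite (𝓝 c))
    (hd : Tendsto (fun v : Equiv.Perm Q => f (em Q v * h)) cofinite (𝓝 d)) : c = d := by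
  have h1 : Uncountable (Equiv.Perm (P ∩ Q : Set X)) := uncountable_perm hPQ
  have h2 : (cofinite : Filter (Equiv.Perm (P ∩ Q : Set X))).NeBot := cofinite_neBot
  exact tendsto_nhds_unique (lim_sub Set.inter_subset_left hc) (lim_sub Set.inter_subset_right hd)

lemma exists_C [Infinite X] (hf : SOf f) : ∃ C : Equiv.Perm X → ℝ, ∀ h, ∀ P : Set X, Gd P →
    Tendsto (fun v : Equiv.Perm P => f (em P v * h)) cofinite (𝓝 (C h)) := by
  obtain ⟨P₀, P₁, -, -, h3, h4, h5⟩ := split (X := X) Set.infinite_univ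
  have hP₀ : Gd P₀ := ⟨h4, h5.mono (fun x hx hcon => Set.disjoint_left.1 h3 hcon hx)⟩
  choose C hC using lim_perm hf hP₀
  refine ⟨C, fun h P hP => ?_⟩
  obtain ⟨Q, hQ, h6, h7⟩ := exists_between hP₀ hP
  obtain ⟨d, hd⟩ := lim_perm hf hQ h
  obtain ⟨e, he⟩ := lim_perm hf hP h
  have h8 := lim_eq h6 (hC h) hd
  have h9 := lim_eq h7 hd he
  rw [h8, h9]
  exact he

lemma C_mul {C : Equiv.Perm X → ℝ} (hC : ∀ h, ∀ P : Set X, Gd P →
    Tendsto (fun v : Equiv.Perm P => f (em P v * h)) cofinite (𝓝 (C h))) {P : Set X} (hP : Gd P)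
    (w : Equiv.Perm P) (h : Equiv.Perm X) : C (em P w * h) = C h := by
  have h1 : Uncountable (Equiv.Perm P) := uncountable_perm hP.1
  have h2 : (cofinite : Filter (Equiv.Perm P)).NeBot := cofinite_neBot
  have h3 : Function.Injective (fun v : Equiv.Perm P => v * w) := mul_left_injective w
  have h4 := (hC h P hP).comp h3.tendsto_cofinite
  refine tendsto_nhds_unique (hC (em P w * h) P hP) (h4.congr (fun v => ?_))
  rw [Function.comp_apply, map_mul, mul_assoc]

/-- Every permutation is a product of two permutations with good supports. -/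
lemma factor [Infinite X] (g : Equiv.Perm X) : ∃ (P P' : Set X) (w : Equiv.Perm P)
    (w' : Equiv.Perm P'), Gd P ∧ Gd P' ∧ g = em P w * em P' w' := by
  classical
  by_cases hfin : {x | g x ≠ x}.Finite
  · have h1 : ({x | g x ≠ x}ᶜ : Set X).Infinite := hfin.infinite_compl
    obtain ⟨T₁, T₂, h2, h3, h4, h5, h6⟩ := split h1
    have hP : Gd ({x | g x ≠ x} ∪ T₁) := by
      refine ⟨h5.mono Set.subset_union_right, h6.mono ?_⟩
      intro x hx hcon
      rcases hcon with hcon | hcon
      · exact h3 hx hcon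
      · exact Set.disjoint_left.1 h4 hcon hx
    obtain ⟨w, hw⟩ := em_of_fix (P := {x | g x ≠ x} ∪ T₁) (g := g) (by
      intro x hx
      by_contra hcon
      exact hx (Or.inl hcon))
    exact ⟨_, _, w, 1, hP, hP, by rw [hw, map_one, mul_one]⟩
  · obtain ⟨x, hx1, hx2⟩ := exists_seq_of_forall_finset_exists (fun x => g x ≠ x)
      (fun x y => x ≠ y ∧ x ≠ g y ∧ y ≠ g x) (by
        intro s _
        have h1 : ({x | g x ≠ x} \ ((s ∪ s.image g ∪ s.image g.symm : Finset X) : Set X)).Infinite :=
          Set.Infinite.sdiff hfin (Finset.finite_toSet _)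
        obtain ⟨y, hy1, hy2⟩ := h1.nonempty
        refine ⟨y, hy1, ?_⟩
        intro x hx
        simp only [Finset.coe_union, Finset.coe_image, Set.mem_union, Finset.mem_coe,
          Set.mem_image, not_or, not_exists, not_and] at hy2
        refine ⟨?_, ?_, ?_⟩
        · rintro rfl
          exact hy2.1.1 hx
        · intro h
          apply hy2.2 x hx
          rw [h, Equiv.symm_apply_apply]
        · intro h
          exact hy2.1.2 x hx h.symm)
    have hne : ∀ m n, x m ≠ g (x n) := by
      intro m n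
      rcases lt_trichotomy m n with h | h | h
      · exact (hx2 m n h).2.1
      · subst h
        exact (hx1 m).symm
      · exact (hx2 n m h).2.2
    have hinj : Function.Injective x := by
      intro m n hmn
      by_contra hcon
      rcases lt_or_gt_of_ne hcon with h | h
      · exact (hx2 m n h).1 hmn
      · exact (hx2 n m h).1 hmn.symm
    let B : Set X := Set.range (fun n => x (2 * n))
    have hBinf : B.Infinite := by
      apply Set.infinite_range_of_injective
      intro m n hmn
      have := hinj hmn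
      omega
    have hBodd : (Set.range (fun n => x (2 * n + 1))).Infinite := by
      apply Set.infinite_range_of_injective
      intro m n hmn
      have := hinj hmn
      omega
    have hBg : ∀ b ∈ B, g b ∉ B := by
      rintro _ ⟨n, rfl⟩ ⟨m, hm⟩
      exact hne _ _ hm
    have hgB : ∀ b ∈ B, ∀ b' ∈ B, b ≠ g b' := by
      rintro _ ⟨n, rfl⟩ _ ⟨m, rfl⟩
      exact hne _ _
    let h0 : X → X := fun y => if y ∈ B then g y else if g.symm y ∈ B then g.symm y else y
    have hinv : Function.Involutive h0 := by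
      intro y
      simp only [h0]
      by_cases hy : y ∈ B
      · rw [if_pos hy, if_neg (hBg y hy), Equiv.symm_apply_apply, if_pos hy]
      · rw [if_neg hy]
        by_cases hy' : g.symm y ∈ B
        · rw [if_pos hy', if_pos hy', Equiv.apply_symm_apply]
        · rw [if_neg hy', if_neg hy, if_neg hy']
    let h : Equiv.Perm X := hinv.toPerm
    have hh : ∀ y, h y = h0 y := fun y => rfl
    have hP : Gd (B ∪ g '' B) := by
      refine ⟨hBinf.mono Set.subset_union_left, hBodd.mono ?_⟩
      rintro _ ⟨n, rfl⟩ hcon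
      rcases hcon with ⟨m, hm⟩ | ⟨_, ⟨m, rfl⟩, hm⟩
      · have := hinj hm
        omega
      · exact hne _ _ hm.symm
    have hP' : Gd Bᶜ := by
      refine ⟨?_, by rw [compl_compl]; exact hBinf⟩
      refine hBodd.mono ?_
      rintro _ ⟨n, rfl⟩ ⟨m, hm⟩
      have := hinj hm
      omega
    obtain ⟨w, hw⟩ := em_of_fix (P := B ∪ g '' B) (g := h) (by
      intro y hy
      rw [hh]
      simp only [h0]
      rw [if_neg (fun h => hy (Or.inl h)), if_neg]
      intro hcon
      exact hy (Or.inr ⟨g.symm y, hcon, Equiv.apply_symm_apply _ _⟩))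
    obtain ⟨w', hw'⟩ := em_of_fix (P := Bᶜ) (g := h⁻¹ * g) (by
      intro y hy
      have hyB : y ∈ B := by
        by_contra hcon
        exact hy hcon
      rw [Equiv.Perm.mul_apply, Equiv.Perm.inv_eq_iff_eq, hh]
      simp only [h0]
      rw [if_pos hyB])
    exact ⟨_, _, w, w', hP, hP', by rw [hw, hw', mul_inv_cancel_left]⟩

/-- Slowly oscillating functions on permutation groups converge at infinity. -/
theorem perm_main (f : Equiv.Perm X → ℝ) (hf : SOf f) : ∃ c : ℝ, Tendsto f cofinite (𝓝 c) := by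
  rcases finite_or_infinite X with hX | hX
  · have : Finite (Equiv.Perm X) := inferInstance
    exact ⟨0, by rw [Filter.cofinite_eq_bot]; exact tendsto_bot⟩
  · obtain ⟨C, hC⟩ := exists_C hf
    have h1 : ∀ g, C g = C 1 := by
      intro g
      obtain ⟨P, P', w, w', hP, hP', hg⟩ := factor g
      have h2 := C_mul hC hP w (em P' w' * 1)
      have h3 := C_mul hC hP' w' 1
      rw [mul_one] at h2
      rw [hg, h2]
      rw [mul_one] at h3
      exact h3
    refine ⟨C 1, ?_⟩
    rw [Metric.tendsto_nhds]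
    intro ε hε
    rw [Filter.eventually_cofinite]
    by_contra hS
    have hS' : {g | ¬ dist (f g) (C 1) < ε}.Infinite := hS
    let z' : ℕ → Equiv.Perm X := fun n => (hS'.natEmbedding _ n : Equiv.Perm X)
    have hz' : Function.Injective z' := by
      intro m n hmn
      exact (hS'.natEmbedding _).injective (Subtype.ext hmn)
    have hz'' : ∀ n, ¬ dist (f (z' n)) (C 1) < ε := fun n => (hS'.natEmbedding _ n).2
    obtain ⟨P₀, P₁, -, -, h3, h4, h5⟩ := split (X := X) Set.infinite_univ
    have hP₀ : Gd P₀ := ⟨h4, h5.mono (fun x hx hcon => Set.disjoint_left.1 h3 hcon hx)⟩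
    have hu : Uncountable (Equiv.Perm P₀) := uncountable_perm h4
    have h6 := seq_lim (V := Equiv.Perm P₀) (α := fun v => em P₀ v) hf hz' (c := C 1) (by
      intro n
      have := hC (z' n) P₀ hP₀
      rwa [h1] at this)
    obtain ⟨n, hn⟩ := ((Metric.tendsto_nhds.1 h6) ε hε).exists
    exact hz'' n hn

end Perm

end Pool.Agent.Q184.BG.Sym
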