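import Pool.Agent.Q289.BG.Stm

set_option autoImplicit false

/-!
# Job TRN of project BG: the reflections in one class of a bipartite graph
-/

namespace Pool.Agent.Q184.BG

open MeasureTheory Set Q289.BG
open Pool.Agent.W695.KH (Eu EV VV)

variable {ι : Type} [Fintype ι]

theorem fl_apply (c : Set ι) (x : Eu ι) (i : ι) [Decidable (i ∈ c)] :
    fl c x i = if i ∈ c then 1 - x i else x i := by
  classical
  unfold fl
  by_cases h : i ∈ c <;> simp [h]

theorem fl_fl (c : Set ι) (x : Eu ι) : fl c (fl c x) = x := by
  classical
  ext i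
  rw [fl_apply, fl_apply]
  by_cases h : i ∈ c
  · simp [h]
  · simp [h]

theorem fl_mp (c : Set ι) : MeasurePreserving (fl c : Eu ι → Eu ι) := by
  classical
  have h1 : MeasurePreserving (fun a : ι → ℝ => fun i => (if i ∈ c then (fun t : ℝ => 1 - t) else id) (a i)) := by
    apply volume_preserving_pi
    intro i
    by_cases h : i ∈ c
    · rw [if_pos h]
      exact Measure.measurePreserving_sub_left volume 1
    · rw [if_neg h]
      exact MeasurePreserving.id _
  have h2 := (PiLp.volume_preserving_toLp ι).comp (h1.comp (PiLp.volume_preserving_ofLp ι))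
  convert h2 using 1
  funext x
  ext i
  rw [fl_apply]
  by_cases h : i ∈ c
  · simp [h]
  · simp [h]

/-- the reflections as a measurable equivalence -/
noncomputable def flE (c : Set ι) : Eu ι ≃ᵐ Eu ι where
  toFun := fl c
  invFun := fl c
  left_inv := fl_fl c
  right_inv := fl_fl c
  measurable_toFun := (fl_mp c).measurable
  measurable_invFun := (fl_mp c).measurable

/-- the order on the vertices: an edge goes up to the class `c` -/
@[reducible] def ord (G : SimpleGraph ι) (c : Set ι) : PartialOrder ι where
  le i j := i = j ∨ (G.Adj i j ∧ i ∉ c ∧ j ∈ c)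
  le_refl i := Or.inl rfl
  le_trans i j k h1 h2 := by
    rcases h1 with rfl | ⟨h1, h3, h4⟩
    · exact h2
    · rcases h2 with rfl | ⟨h5, h6, h7⟩
      · exact Or.inr ⟨h1, h3, h4⟩
      · exact absurd h4 h6
  le_antisymm i j h1 h2 := by
    rcases h1 with rfl | ⟨h1, h3, h4⟩
    · rfl
    · rcases h2 with rfl | ⟨h5, h6, h7⟩
      · rfl
      · exact absurd h4 h6

theorem trn : S_TRN := by
  intro ι _ G ⟨C⟩
  classical
  let c : Set ι := {i | C i = 1}
  refine ⟨ord G c, c, fun g => ?_⟩
  have hpre : (fl c) ⁻¹' (Up G) = @Q289.OP.OPo ι _ (ord G c) 0 1 := by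
    ext x
    constructor
    · rintro ⟨h1, h2⟩
      refine ⟨fun i => ?_, ?_⟩
      · have := h1 i
        rw [fl_apply] at this
        by_cases h : i ∈ c
        · rw [if_pos h] at this
          exact ⟨by linarith [this.2], by linarith [this.1]⟩
        · rw [if_neg h] at this
          exact this
      · intro i j hij
        rcases hij with rfl | ⟨h3, h4, h5⟩
        · exact le_rfl
        · have := h2 i j h3
          rw [fl_apply, fl_apply, if_neg h4, if_pos h5] at this
          show x i ≤ x j
          linarith
    · rintro ⟨h1, h2⟩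
      refine ⟨fun i => ?_, fun i j hij => ?_⟩
      · have := h1 i
        rw [fl_apply]
        by_cases h : i ∈ c
        · rw [if_pos h]
          exact ⟨by linarith [this.2], by linarith [this.1]⟩
        · rw [if_neg h]
          exact this
      · have hne : C i ≠ C j := C.valid hij
        rw [fl_apply, fl_apply]
        by_cases hi : i ∈ c
        · have hj : j ∉ c := fun hj => hne (hi.trans hj.symm)
          have h3 : x j ≤ x i := h2 (Or.inr ⟨hij.symm, hj, hi⟩)
          rw [if_pos hi, if_neg hj]
          linarith
        · have hj : j ∈ c := by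
            have h4 : C i ≠ 1 := hi
            show C j = 1
            omega
          have h3 : x i ≤ x j := h2 (Or.inr ⟨hij, hi, hj⟩)
          rw [if_neg hi, if_pos hj]
          linarith
  have hemb : MeasurableEmbedding (fl c : Eu ι → Eu ι) := (flE c).measurableEmbedding
  have h1 : ∫ x in @Q289.OP.OPo ι _ (ord G c) 0 1, g (fl c x) = ∫ y in Up G, g y := by
    rw [← hpre]
    exact (fl_mp c).setIntegral_preimage_emb hemb g (Up G)
  have h2 : volume (@Q289.OP.OPo ι _ (ord G c) 0 1) = volume (Up G) := by
    rw [← hpre]
    exact (fl_mp c).measure_preimage_emb hemb (Up G)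
  unfold EV
  rw [h1, h2]

end Pool.Agent.Q184.BG
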