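import Pool.Agent.Q184.BG.Limit

/-!
The bounded-rate part of the ultrapower.
-/

set_option autoImplicit false

namespace Pool.Agent.Q184.BG

open Set Filter Topology

section Rates

variable (H : FG)

/-- The ultrafilter. -/
noncomputable abbrev UU : Ultrafilter ℕ := Filter.hyperfilter ℕ

/-- Sequences of bounded rate. -/
def BR (x : ℕ → H.G) : Prop :=
  ∀ j : ℕ, ∃ N : ℕ, ∀ᶠ m in (UU : Filter ℕ), Cov (mv H (x m) (1 / ((j : ℝ) + 1))) N

variable {H}

lemma mv_mul_cov {s t : H.G} {ε : ℝ} {N M : ℕ} (hs : Cov (mv H s (ε / 2)) N)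
    (ht : Cov (mv H t (ε / 2)) M) : Cov (mv H (s * t) ε) (N + M) := by
  refine ((hs.image (fun g => t⁻¹ * g)).union ht).mono ?_ le_rfl
  intro g hg
  have hg' : ε ≤ |H.f (s * t * g) - H.f g| := hg
  by_cases h : ε / 2 ≤ |H.f (t * g) - H.f g|
  · exact Or.inr h
  · refine Or.inl ⟨t * g, ?_, inv_mul_cancel_left t g⟩
    change ε / 2 ≤ |H.f (s * (t * g)) - H.f (t * g)|
    have : |H.f (s * t * g) - H.f g| ≤
        |H.f (s * (t * g)) - H.f (t * g)| + |H.f (t * g) - H.f g| := by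
      rw [mul_assoc]
      exact abs_sub_le _ _ _
    push Not at h
    linarith

lemma mv_inv_cov {s : H.G} {ε : ℝ} {N : ℕ} (hs : Cov (mv H s ε) N) : Cov (mv H s⁻¹ ε) N := by
  refine (hs.image (fun g => s * g)).mono ?_ le_rfl
  intro g hg
  have hg' : ε ≤ |H.f (s⁻¹ * g) - H.f g| := hg
  refine ⟨s⁻¹ * g, ?_, mul_inv_cancel_left s g⟩
  change ε ≤ |H.f (s * (s⁻¹ * g)) - H.f (s⁻¹ * g)|
  rw [mul_inv_cancel_left, abs_sub_comm]
  exact hg'

lemma BR.mul {x y : ℕ → H.G} (hx : BR H x) (hy : BR H y) : BR H (fun m => x m * y m) := by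
  intro j
  obtain ⟨N, hN⟩ := hx (2 * j + 1)
  obtain ⟨M, hM⟩ := hy (2 * j + 1)
  refine ⟨N + M, ?_⟩
  have h : 1 / (((2 * j + 1 : ℕ) : ℝ) + 1) = 1 / ((j : ℝ) + 1) / 2 := by
    push_cast
    field_simp
    ring
  rw [h] at hN hM
  filter_upwards [hN, hM] with m h1 h2
  exact mv_mul_cov h1 h2

lemma BR.inv {x : ℕ → H.G} (hx : BR H x) : BR H (fun m => (x m)⁻¹) := by
  intro j
  obtain ⟨N, hN⟩ := hx j
  refine ⟨N, ?_⟩
  filter_upwards [hN] with m h1
  exact mv_inv_cov h1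

lemma BR.const (s : H.G) : BR H (fun _ => s) := by
  intro j
  obtain ⟨N, hN⟩ := Cov.of_finite (H.so s (1 / ((j : ℝ) + 1)) (by positivity))
  exact ⟨N, Eventually.of_forall (fun _ => hN)⟩

lemma BR.of_inv {x : ℕ → H.G} (hx : ∀ m y, H.f (x m * y) = H.f y) : BR H x := by
  intro j
  refine ⟨0, Eventually.of_forall (fun m => Cov.empty ?_ 0)⟩
  ext g
  simp only [mv, mem_ofPred_eq, hx, sub_self, abs_zero, mem_empty_iff_false, iff_false, not_le]
  positivity

variable (H)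

/-- The ultrapower. -/
abbrev Up : Type := Filter.Germ (UU : Filter ℕ) H.G

/-- The bounded-rate part of the ultrapower. -/
def KK : Subgroup (Up H) where
  carrier := {g | ∃ x : ℕ → H.G, (x : Up H) = g ∧ BR H x}
  mul_mem' := by
    rintro _ _ ⟨x, rfl, hx⟩ ⟨y, rfl, hy⟩
    exact ⟨_, rfl, hx.mul hy⟩
  one_mem' := ⟨fun _ => 1, rfl, BR.const 1⟩
  inv_mem' := by
    rintro _ ⟨x, rfl, hx⟩
    exact ⟨_, rfl, hx.inv⟩

variable {H}

lemma exists_lim (g : Up H) : ∃ L : ℝ, ∀ x : ℕ → H.G, (x : Up H) = g →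
    Tendsto (fun m => H.f (x m)) (UU : Filter ℕ) (𝓝 L) := by
  induction g using Filter.Germ.inductionOn with
  | h y =>
    have h1 : ∃ L ∈ Icc (0 : ℝ) 1, ((UU.map (fun m => H.f (y m)) : Ultrafilter ℝ) : Filter ℝ) ≤ 𝓝 L := by
      apply isCompact_Icc.ultrafilter_le_nhds
      rw [le_principal_iff]
      have h5 : ∀ᶠ m in (UU : Filter ℕ), H.f (y m) ∈ Icc (0 : ℝ) 1 :=
        Eventually.of_forall (fun m => ⟨H.f0 _, H.f1 _⟩)
      exact Filter.mem_map.2 h5
    obtain ⟨L, -, hL⟩ := h1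
    refine ⟨L, fun x hx => ?_⟩
    have h2 : x =ᶠ[(UU : Filter ℕ)] y := Filter.Germ.coe_eq.1 hx
    have h3 : Tendsto (fun m => H.f (y m)) (UU : Filter ℕ) (𝓝 L) := hL
    refine h3.congr' ?_
    filter_upwards [h2] with m hm
    rw [hm]

/-- The limit function. -/
noncomputable def Fu (g : Up H) : ℝ := (exists_lim g).choose

lemma Fu_spec (x : ℕ → H.G) :
    Tendsto (fun m => H.f (x m)) (UU : Filter ℕ) (𝓝 (Fu (x : Up H))) :=
  (exists_lim (x : Up H)).choose_spec x rfl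

lemma Fu_so (s : KK H) {ε : ℝ} (hε : 0 < ε) :
    {g : KK H | ε ≤ |Fu ((s * g : KK H) : Up H) - Fu (g : Up H)|}.Finite := by
  classical
  obtain ⟨s, hs⟩ := s
  obtain ⟨x, rfl, hx⟩ := hs
  obtain ⟨j, hj⟩ := exists_nat_one_div_lt hε
  obtain ⟨N, hN⟩ := hx j
  by_contra hinf
  obtain ⟨T, hT, hTc⟩ := Set.Infinite.exists_subset_card_eq hinf (N + 1)
  choose r hr using fun g : KK H => g.2
  -- representatives
  have h1 : ∀ g ∈ T, ∀ᶠ m in (UU : Filter ℕ),
      1 / ((j : ℝ) + 1) ≤ |H.f (x m * r g m) - H.f (r g m)| := by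
    intro g hg
    have h2 := Fu_spec (H := H) (fun m => x m * r g m)
    have h3 := Fu_spec (H := H) (r g)
    have h4 : ((fun m => x m * r g m : ℕ → H.G) : Up H) = (x : Up H) * (g : Up H) := by
      rw [← (hr g).1]
      rfl
    rw [h4] at h2
    rw [(hr g).1] at h3
    have h5 := (h2.sub h3).abs
    have h6 : 1 / ((j : ℝ) + 1) < |Fu ((x : Up H) * (g : Up H)) - Fu (g : Up H)| :=
      lt_of_lt_of_le hj (hT hg)
    exact (h5.eventually (lt_mem_nhds h6)).mono (fun m hm => hm.le)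
  have h2 : ∀ g ∈ T, ∀ g' ∈ T, g ≠ g' → ∀ᶠ m in (UU : Filter ℕ), r g m ≠ r g' m := by
    intro g _ g' _ hne
    rw [Ultrafilter.eventually_not]
    intro hcon
    apply hne
    apply Subtype.ext
    rw [← (hr g).1, ← (hr g').1]
    exact Filter.Germ.coe_eq.2 hcon
  have h3 : ∀ᶠ m in (UU : Filter ℕ), (∀ g ∈ T,
      1 / ((j : ℝ) + 1) ≤ |H.f (x m * r g m) - H.f (r g m)|) ∧
      (∀ g ∈ T, ∀ g' ∈ T, g ≠ g' → r g m ≠ r g' m) := by
    refine Eventually.and ?_ ?_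
    · rw [Finset.eventually_all]
      exact h1
    · rw [Finset.eventually_all]
      intro g hg
      rw [Finset.eventually_all]
      intro g' hg'
      by_cases hne : g = g'
      · exact Eventually.of_forall (fun m h => absurd hne h)
      · exact (h2 g hg g' hg' hne).mono (fun m hm _ => hm)
  obtain ⟨m, ⟨ha, hb⟩, t, ht1, ht2⟩ := (h3.and hN).exists
  have h4 : (T.image (fun g => r g m)).card = N + 1 := by
    rw [Finset.card_image_of_injOn, hTc]
    intro g hg g' hg' h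
    by_contra hne
    exact hb g hg g' hg' hne h
  have h5 : T.image (fun g => r g m) ⊆ t := by
    intro y hy
    obtain ⟨g, hg, rfl⟩ := Finset.mem_image.1 hy
    exact ht1 (ha g hg)
  have := Finset.card_le_card h5
  omega

end Rates

/-- The group is strongly distorted. -/
theorem ultra_dist {H : FG} (hH : ∀ (k : ℕ) (z : ℕ → H.G),
    ∃ c x a x' a' : H.G, (∀ n ≤ k, z n = Ww c x a x' a' n) ∧
    (∀ y, H.f (x * y) = H.f y) ∧ (∀ y, H.f (a * y) = H.f y) ∧
    (∀ y, H.f (x' * y) = H.f y) ∧ (∀ y, H.f (a' * y) = H.f y) ∧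
    (∀ j N : ℕ, (∀ n ≤ j, Cov (mv H (z n) (1 / ((j : ℝ) + 1))) N) →
        Cov (mv H c (1 / ((j : ℝ) + 1))) (Th j N))) (z : ℕ → KK H) :
    ∃ c x a x' a' : KK H, ∀ n, z n = Ww c x a x' a' n := by
  classical
  choose r hr using fun n => (z n).2
  choose c x a x' a' h1 h2 h3 h4 h5 h6 using fun m => hH m (fun n => r n m)
  have hc : BR H c := by
    intro j
    choose N hN using fun n => (hr n).2 j
    refine ⟨Th j ((Finset.range (j + 1)).sup N), ?_⟩
    have h7 : ∀ᶠ m in (UU : Filter ℕ), ∀ n ∈ Finset.range (j + 1),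
        Cov (mv H (r n m) (1 / ((j : ℝ) + 1))) (N n) := by
      rw [Finset.eventually_all]
      intro n _
      exact hN n
    filter_upwards [h7] with m hm
    apply h6 m
    intro n hn
    exact (hm n (Finset.mem_range.2 (by omega))).mono (Set.Subset.refl _)
      (Finset.le_sup (f := N) (Finset.mem_range.2 (by omega)))
  refine ⟨⟨(c : Up H), c, rfl, hc⟩, ⟨(x : Up H), x, rfl, BR.of_inv h2⟩,
    ⟨(a : Up H), a, rfl, BR.of_inv h3⟩, ⟨(x' : Up H), x', rfl, BR.of_inv h4⟩,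
    ⟨(a' : Up H), a', rfl, BR.of_inv h5⟩, ?_⟩
  intro n
  apply Subtype.ext
  have h8 := map_Ww (KK H).subtype (⟨(c : Up H), c, rfl, hc⟩ : KK H)
    ⟨(x : Up H), x, rfl, BR.of_inv h2⟩ ⟨(a : Up H), a, rfl, BR.of_inv h3⟩
    ⟨(x' : Up H), x', rfl, BR.of_inv h4⟩ ⟨(a' : Up H), a', rfl, BR.of_inv h5⟩ n
  refine Eq.trans ?_ h8.symm
  rw [← (hr n).1]
  -- compute in germs
  let q : (ℕ → H.G) →* Up H := Filter.Germ.coeMulHom (UU : Filter ℕ)
  have h9 := map_Ww q c x a x' a' n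
  refine Eq.trans ?_ h9
  change ((r n : ℕ → H.G) : Up H) = ((Ww c x a x' a' n : ℕ → H.G) : Up H)
  apply Filter.Germ.coe_eq.2
  have h10 : ∀ m, (Ww c x a x' a' n : ℕ → H.G) m = Ww (c m) (x m) (a m) (x' m) (a' m) n := by
    intro m
    exact map_Ww (Pi.evalMonoidHom (fun _ => H.G) m) c x a x' a' n
  have h11 : ∀ᶠ m in (UU : Filter ℕ), n ≤ m := by
    have : ∀ᶠ m in (Filter.atTop : Filter ℕ), n ≤ m := Filter.eventually_ge_atTop n
    rw [← Nat.cofinite_eq_atTop] at this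
    exact Filter.hyperfilter_le_cofinite this
  filter_upwards [h11] with m hm
  rw [h10]
  exact h1 m n hm

end Pool.Agent.Q184.BG
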